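import Pool.Agent.H757.TB3.Dpoly

/-!
# The polynomial `D` is palindromic and trapezoidal
-/

namespace Pool.Agent.H757.TB3

open Polynomial Matrix

noncomputable section

theorem cf_big (D : ℤ[X]) {k : ℤ} (h : (D.natDegree : ℤ) < k) : cf D k = 0 := by
  unfold cf
  rw [if_pos (by omega)]
  apply coeff_eq_zero_of_natDegree_lt
  omega

theorem cf_kappa (D : ℤ[X]) (k : ℤ) :
    cf ((X ^ 2 - X + 1) * D) k = cf D (k - 2) - cf D (k - 1) + cf D k := by
  rw [show (X ^ 2 - X + 1) * D = X * (X * D) - X * D + D by ring, cf_add, cf_sub, cf_X_mul,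
    cf_X_mul, cf_X_mul, show k - 1 - 1 = k - 2 by ring]

theorem count_add (w : List Bool) : w.count true + w.count false = w.length := by
  rw [← List.count_not_add_count w true]
  simp [add_comm]

theorem rhs_pal (w : List Bool) (k : ℤ) :
    cf (F w + K w - X ^ (w.count true) - X ^ (w.count false)) (w.length - k) =
      cf (F w + K w - X ^ (w.count true) - X ^ (w.count false)) k := by
  have h := congrArg (fun p => cf p k) (idFK w)
  simp only [cf_add] at h
  simp only [cf_add, cf_sub, cf_X_pow, revF, revK]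
  have hc := count_add w
  have e1 : ((w.length : ℤ) - k = w.count true) ↔ (k = w.count false) := by omega
  have e2 : ((w.length : ℤ) - k = w.count false) ↔ (k = w.count true) := by omega
  simp only [e1, e2]
  linarith

theorem IsD.pal {w : List Bool} {D : ℤ[X]} (h : IsD w D) (k : ℤ) :
    cf D (w.length - 2 - k) = cf D k := by
  have hrec : ∀ k : ℤ, cf D (w.length - 2 - k) - cf D (w.length - 1 - k) + cf D (w.length - k) =
      cf D (k - 2) - cf D (k - 1) + cf D k := by
    intro k
    have h1 := cf_kappa D k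
    have h2 := cf_kappa D (w.length - k)
    unfold IsD at h
    rw [h] at h1 h2
    rw [rhs_pal] at h2
    rw [← h1, h2, show (w.length : ℤ) - k - 2 = w.length - 2 - k by ring,
      show (w.length : ℤ) - k - 1 = w.length - 1 - k by ring]
  obtain ⟨N, hN⟩ : ∃ N : ℤ, N = -(D.natDegree : ℤ) - w.length - 5 := ⟨_, rfl⟩
  have hsmall : ∀ j : ℤ, j ≤ N + 1 → cf D (w.length - 2 - j) = cf D j := by
    intro j hj
    rw [cf_neg_idx _ (show j < 0 by omega), cf_big _ (by omega)]
  have hall : ∀ m : ℕ, cf D (w.length - 2 - (N + m)) = cf D (N + m) ∧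
      cf D (w.length - 2 - (N + m + 1)) = cf D (N + m + 1) := by
    intro m
    induction m with
    | zero => exact ⟨hsmall _ (by push_cast; omega), hsmall _ (by push_cast; omega)⟩
    | succ m ih =>
      obtain ⟨i1, i2⟩ := ih
      push_cast
      refine ⟨?_, ?_⟩
      · rw [← add_assoc]; exact i2
      · have h3 := hrec (N + m + 2)
        rw [show (w.length : ℤ) - 1 - (N + m + 2) = w.length - 2 - (N + m + 1) by ring,
          show (w.length : ℤ) - (N + m + 2) = w.length - 2 - (N + m) by ring, i1, i2,
          show N + (m : ℤ) + 2 - 1 = N + m + 1 by ring,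
          show N + (m : ℤ) + 2 - 2 = N + m by ring] at h3
        rw [show N + ((m : ℤ) + 1) + 1 = N + m + 2 by ring]
        linarith
  by_cases hk : k ≤ N + 1
  · exact hsmall k hk
  · have := (hall (k - N).toNat).1
    rwa [show N + ((k - N).toNat : ℤ) = k by omega] at this

/-- A finite sequence `a 0, …, a n` of integers is trapezoidal. -/
def Trapezoidal (n : ℕ) (a : ℕ → ℤ) : Prop :=
  ∃ k : ℕ, 2 * k ≤ n ∧ (∀ i, i < k → a i < a (i + 1)) ∧
    (∀ i, k ≤ i → i < n - k → a i = a (i + 1)) ∧
    (∀ i, n - k ≤ i → i < n → a (i + 1) < a i)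

theorem trap_aux (n : ℕ) (b : ℤ → ℤ) (hpal : ∀ k, b (n - k) = b k) (h0 : 0 < b 0 - b (-1))
    (h1 : ∀ k : ℤ, 2 * k ≤ n → 0 ≤ b k - b (k - 1))
    (h2 : ∀ k : ℤ, 1 ≤ k → 2 * (k + 1) ≤ n → b k - b (k - 1) = 0 → b (k + 1) - b k = 0)
    (m : ℕ) (hm : 2 * m ≤ n) (h3 : ∀ k : ℤ, 0 ≤ k → k ≤ m → 0 < b k - b (k - 1)) :
    ∃ k : ℕ, m ≤ k ∧ 2 * k ≤ n ∧ (∀ i : ℕ, i < k → b i < b (i + 1)) ∧
    (∀ i : ℕ, k ≤ i → i < n - k → b i = b (i + 1)) ∧
    (∀ i : ℕ, n - k ≤ i → i < n → b (i + 1) < b i) := by
  classical
  -- the largest `k` with `b` strictly increasing up to `k`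
  let Q : ℕ → Prop := fun k => 2 * k ≤ n ∧ ∀ i : ℕ, i < k → b i < b (i + 1)
  have hQm : Q m := by
    refine ⟨hm, fun i hi => ?_⟩
    have := h3 (i + 1) (by omega) (by omega)
    rw [show (i : ℤ) + 1 - 1 = i by ring] at this
    linarith
  obtain ⟨k, hk⟩ : ∃ k, k = Nat.findGreatest Q n := ⟨_, rfl⟩
  have hQk : Q k := by
    rw [hk]; exact Nat.findGreatest_spec (m := m) (by omega) hQm
  have hmk : m ≤ k := by
    rw [hk]; exact Nat.le_findGreatest (by omega) hQm
  have hmax : ¬ Q (k + 1) := by
    intro hc
    have : k + 1 ≤ Nat.findGreatest Q n := Nat.le_findGreatest (by have := hc.1; omega) hc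
    omega
  -- plateau in the first half
  have hflat : ∀ i : ℕ, k ≤ i → 2 * (i + 1) ≤ n → b (i + 1) = b i := by
    intro i
    induction i with
    | zero =>
      intro hi h
      have hk0 : k = 0 := by omega
      by_contra hne
      apply hmax
      refine ⟨by omega, fun j hj => ?_⟩
      have hj0 : j = 0 := by omega
      subst hj0
      have := h1 1 (by omega)
      norm_num at this hne ⊢
      omega
    | succ i ih =>
      intro hi h
      by_cases hki : k ≤ i
      · have e := ih hki (by omega)
        have := h2 (i + 1) (by omega) (by push_cast; omega) (by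
          rw [show (i : ℤ) + 1 - 1 = i by ring]; linarith)
        push_cast
        linarith
      · have hki' : k = i + 1 := by omega
        by_contra hne
        apply hmax
        refine ⟨by omega, fun j hj => ?_⟩
        by_cases hjk : j < k
        · exact hQk.2 j hjk
        · have hj' : j = i + 1 := by omega
          subst hj'
          have := h1 (i + 1 + 1) (by push_cast at h ⊢; omega)
          push_cast at hne ⊢
          rw [show (i : ℤ) + 1 + 1 - 1 = i + 1 by ring] at this
          omega
  refine ⟨k, hmk, hQk.1, hQk.2, ?_, ?_⟩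
  · intro i hi hin
    by_cases hh : 2 * (i + 1) ≤ n
    · exact (hflat i hi hh).symm
    · by_cases hh2 : 2 * i + 1 = n
      · have := hpal i
        rw [← this]
        congr 1
        push_cast [← hh2]
        ring
      · -- reflect
        have e := hflat (n - i - 1) (by omega) (by omega)
        have p1 := hpal i
        have p2 := hpal (i + 1)
        have c1 : ((n - i - 1 : ℕ) : ℤ) = n - (i + 1) := by omega
        rw [c1, p2, show (n : ℤ) - (i + 1) + 1 = n - i by ring, p1] at e
        exact e
  · intro i hi hin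
    have e := hQk.2 (n - i - 1) (by omega)
    have p1 := hpal i
    have p2 := hpal (i + 1)
    have c1 : ((n - i - 1 : ℕ) : ℤ) = n - (i + 1) := by omega
    rw [c1, p2, show (n : ℤ) - (i + 1) + 1 = n - i by ring, p1] at e
    exact e

/-- Everything about the coefficients of `D`: with `n = |w| - 2`, the sequence of coefficients is
positive, palindromic, and trapezoidal, and the increasing part has at least
`min (#A) (#B) - 1` steps. -/
theorem trapD {w : List Bool} {D : ℤ[X]} (h : IsD w D) (hA : true ∈ w) (hB : false ∈ w) :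
    (∀ k : ℤ, cf D (w.length - 2 - k) = cf D k) ∧ cf D 0 = 1 ∧
    ∃ k : ℕ, min (w.count true) (w.count false) - 1 ≤ k ∧ 2 * k ≤ w.length - 2 ∧
      (∀ i : ℕ, i < k → cf D i < cf D (i + 1)) ∧
      (∀ i : ℕ, k ≤ i → i < w.length - 2 - k → cf D i = cf D (i + 1)) ∧
      (∀ i : ℕ, w.length - 2 - k ≤ i → i < w.length - 2 → cf D (i + 1) < cf D i) := by
  obtain ⟨m0, m1, m2, m3⟩ := main w.length w D rfl h hA hB
  have hc := count_add w
  have cA : 0 < w.count true := List.count_pos_iff.2 hA
  have cB : 0 < w.count false := List.count_pos_iff.2 hB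
  have hn : ((w.length - 2 : ℕ) : ℤ) = w.length - 2 := by omega
  refine ⟨h.pal, m0, ?_⟩
  apply trap_aux (w.length - 2) (fun k => cf D k)
  · intro k; rw [hn]; exact h.pal k
  · have := m3 0 le_rfl (by omega) (by omega)
    unfold al at this
    simpa using this
  · intro k hk
    exact m1 k (by rw [hn] at hk; omega)
  · intro k hk1 hk hz
    have := m2 k hk1 (by rw [hn] at hk; omega) hz
    unfold al at this
    rw [show k + 1 - 1 = k by ring] at this
    exact this
  · omega
  · intro k hk0 hk
    exact m3 k hk0 (by omega) (by omega)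

end

end Pool.Agent.H757.TB3
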