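import Pool.Agent.H757.TB3.Eval
import Pool.Agent.H757.TB3.Trap

/-!
# The Alexander polynomial of a closed alternating 3-braid
-/

namespace Pool.Agent.H757.TB3

open Pool.Agent.Helper454.Wh
open Pool.Agent.Helper454.Wh.OPiece
open LaurentPolynomial (T)
open Polynomial (toLaurent)
open Q174.TBD

noncomputable section

/-- The alternating 3-braid word of a list of letters: for `ε = false`, `true` is `σ₁` and `false`
is `σ₂⁻¹`; for `ε = true`, `true` is `σ₁⁻¹` and `false` is `σ₂`. -/
def altWord (ε : Bool) (w : List Bool) : List Letter :=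
  w.map fun b => if b then (true, !ε) else (false, ε)

/-- evaluation at `t ↦ -s²` -/
def evalS : Polynomial ℤ →+* LP := (Polynomial.aeval (-(T 2 : LP))).toRingHom

theorem evalS_X : evalS Polynomial.X = -(T 2 : LP) := by simp [evalS]
theorem evalS_one : evalS 1 = 1 := map_one _

theorem T21 : (T 2 : LP) * T (-1) = T 1 := by rw [← LaurentPolynomial.T_add]; rfl

theorem rho_cons (x : Letter) (β : List Letter) : rho (x :: β) = rhoL x * rho β := by
  simp [rho]

theorem rho_mul (x : Letter) (β : List Letter) (i j : Fin 2) :
    rho (x :: β) i j = rhoL x i 0 * rho β 0 j + rhoL x i 1 * rho β 1 j := by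
  rw [rho_cons, Matrix.mul_apply, Fin.sum_univ_two]

theorem tA00 : rhoL (true, true) 0 0 = T 1 := rfl
theorem tA01 : rhoL (true, true) 0 1 = -T (-1) := rfl
theorem tA10 : rhoL (true, true) 1 0 = 0 := rfl
theorem tA11 : rhoL (true, true) 1 1 = -T (-1) := rfl
theorem tB00 : rhoL (false, false) 0 0 = -T 1 := rfl
theorem tB01 : rhoL (false, false) 0 1 = 0 := rfl
theorem tB10 : rhoL (false, false) 1 0 = -T 1 := rfl
theorem tB11 : rhoL (false, false) 1 1 = T (-1) := rfl

/-- the scalar factor -/
def sc (w : List Bool) : LP := (-1) ^ (w.count true) * T (-(w.length : ℤ))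

theorem sc_A (w : List Bool) : sc (true :: w) = -T (-1) * sc w := by
  unfold sc
  have hT : (T (-((w.length : ℤ) + 1)) : LP) = T (-1) * T (-(w.length : ℤ)) := by
    rw [← LaurentPolynomial.T_add]; congr 1; ring
  have hc : (true :: w).count true = w.count true + 1 := by simp
  simp only [List.length_cons, Nat.cast_add, Nat.cast_one]
  rw [hc, hT, pow_succ]; ring

theorem sc_B (w : List Bool) : sc (false :: w) = T (-1) * sc w := by
  unfold sc
  have hT : (T (-((w.length : ℤ) + 1)) : LP) = T (-1) * T (-(w.length : ℤ)) := by
    rw [← LaurentPolynomial.T_add]; congr 1; ring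
  have hc : (false :: w).count true = w.count true := by simp
  simp only [List.length_cons, Nat.cast_add, Nat.cast_one]
  rw [hc, hT]; ring

theorem rho_alt (w : List Bool) : rho (altWord false w) 0 0 = sc w * evalS (F w) ∧
    rho (altWord false w) 0 1 = sc w * evalS (G w) ∧
    rho (altWord false w) 1 0 = sc w * evalS (H w) ∧
    rho (altWord false w) 1 1 = sc w * evalS (K w) := by
  induction w with
  | nil => simp [altWord, rho, sc]
  | cons a w ih =>
    obtain ⟨i1, i2, i3, i4⟩ := ih
    have h21 := T21
    cases a
    · have e : altWord false (false :: w) = (false, false) :: altWord false w := rfl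
      rw [e]
      simp only [rho_mul, i1, i2, i3, i4, tB00, tB01, tB10, tB11, sc_B, F_B, G_B, H_B, K_B,
        map_add, map_mul, evalS_X]
      refine ⟨?_, ?_, ?_, ?_⟩
      · linear_combination (sc w * evalS (F w)) * h21
      · linear_combination (sc w * evalS (G w)) * h21
      · linear_combination (sc w * evalS (F w)) * h21
      · linear_combination (sc w * evalS (G w)) * h21
    · have e : altWord false (true :: w) = (true, true) :: altWord false w := rfl
      rw [e]
      simp only [rho_mul, i1, i2, i3, i4, tA00, tA01, tA10, tA11, sc_A, F_A, G_A, H_A, K_A,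
        map_add, map_mul, evalS_X]
      refine ⟨?_, ?_, ?_, ?_⟩
      · linear_combination (-sc w * evalS (F w)) * h21
      · linear_combination (-sc w * evalS (G w)) * h21
      · ring
      · ring

theorem x1_alt (w : List Bool) :
    x1 (altWord false w) = sc w * evalS (Polynomial.X ^ (w.count true)) := by
  induction w with
  | nil => simp [altWord, x1, sc]
  | cons a w ih =>
    have h21 := T21
    cases a
    · have e : x1 (altWord false (false :: w)) = T (-1) * x1 (altWord false w) := rfl
      have hc : (false :: w).count true = w.count true := by simp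
      rw [e, ih, sc_B, hc]; ring
    · have e : x1 (altWord false (true :: w)) = T 1 * x1 (altWord false w) := rfl
      have hc : (true :: w).count true = w.count true + 1 := by simp
      rw [e, ih, sc_A, hc, pow_succ, map_mul, evalS_X]
      linear_combination (-sc w * evalS (Polynomial.X ^ (w.count true))) * h21

theorem x2_alt (w : List Bool) :
    x2 (altWord false w) = sc w * evalS (Polynomial.X ^ (w.count false)) := by
  induction w with
  | nil => simp [altWord, x2, sc]
  | cons a w ih =>
    have h21 := T21
    cases a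
    · have e : x2 (altWord false (false :: w)) = -T 1 * x2 (altWord false w) := rfl
      have hc : (false :: w).count false = w.count false + 1 := by simp
      rw [e, ih, sc_B, hc, pow_succ, map_mul, evalS_X]
      linear_combination (sc w * evalS (Polynomial.X ^ (w.count false))) * h21
    · have e : x2 (altWord false (true :: w)) = -T (-1) * x2 (altWord false w) := rfl
      have hc : (true :: w).count false = w.count false := by simp
      rw [e, ih, sc_A, hc]; ring

/-! ### the mirror image -/

/-- exchange `σ₁` and `σ₂` -/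
def flipL (x : Letter) : Letter := (!x.1, x.2)

theorem rho_flip (β : List Letter) :
    rho (β.map flipL) 1 1 = rho β 0 0 ∧ rho (β.map flipL) 0 0 = rho β 1 1 ∧
    T (-1) * rho (β.map flipL) 1 0 = T 1 * rho β 0 1 ∧
    T 1 * rho (β.map flipL) 0 1 = T (-1) * rho β 1 0 := by
  induction β with
  | nil => simp [rho]
  | cons x β ih =>
    obtain ⟨i1, i2, i3, i4⟩ := ih
    rw [List.map_cons]
    simp only [rho_mul]
    have h := hss
    rcases x with ⟨p, t⟩
    cases p <;> cases t
    · have a1 : flipL (false, false) = (true, false) := rfl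
      have b00 : rhoL (true, false) 0 0 = T (-1) := rfl
      have b01 : rhoL (true, false) 0 1 = -T (-1) := rfl
      have b10 : rhoL (true, false) 1 0 = 0 := rfl
      have b11 : rhoL (true, false) 1 1 = -T 1 := rfl
      simp only [a1, b00, b01, b10, b11, tB00, tB01, tB10, tB11]
      refine ⟨?_, ?_, ?_, ?_⟩
      · linear_combination -T 1 * i1
      · linear_combination T (-1) * i2 - i3 + 0 * h
      · linear_combination -T 1 * i3
      · linear_combination T (-1) * i4 - T (-1) * T 1 * i1
    · have a1 : flipL (false, true) = (true, true) := rfl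
      have b00 : rhoL (false, true) 0 0 = -T (-1) := rfl
      have b01 : rhoL (false, true) 0 1 = 0 := rfl
      have b10 : rhoL (false, true) 1 0 = -T 1 := rfl
      have b11 : rhoL (false, true) 1 1 = T 1 := rfl
      simp only [a1, b00, b01, b10, b11, tA00, tA01, tA10, tA11]
      refine ⟨?_, ?_, ?_, ?_⟩
      · linear_combination -T (-1) * i1
      · linear_combination T 1 * i2 - i3
      · linear_combination -T (-1) * i3
      · linear_combination T 1 * i4 - T (-1) * T 1 * i1
    · have a1 : flipL (true, false) = (false, false) := rfl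
      have b00 : rhoL (true, false) 0 0 = T (-1) := rfl
      have b01 : rhoL (true, false) 0 1 = -T (-1) := rfl
      have b10 : rhoL (true, false) 1 0 = 0 := rfl
      have b11 : rhoL (true, false) 1 1 = -T 1 := rfl
      simp only [a1, b00, b01, b10, b11, tB00, tB01, tB10, tB11]
      refine ⟨?_, ?_, ?_, ?_⟩
      · linear_combination T (-1) * i1 - i4
      · linear_combination -T 1 * i2
      · linear_combination T (-1) * i3 - T (-1) * T 1 * i2
      · linear_combination -T 1 * i4
    · have a1 : flipL (true, true) = (false, true) := rfl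
      have b00 : rhoL (false, true) 0 0 = -T (-1) := rfl
      have b01 : rhoL (false, true) 0 1 = 0 := rfl
      have b10 : rhoL (false, true) 1 0 = -T 1 := rfl
      have b11 : rhoL (false, true) 1 1 = T 1 := rfl
      simp only [a1, b00, b01, b10, b11, tA00, tA01, tA10, tA11]
      refine ⟨?_, ?_, ?_, ?_⟩
      · linear_combination T 1 * i1 - i4
      · linear_combination -T (-1) * i2
      · linear_combination T 1 * i3 - T (-1) * T 1 * i2
      · linear_combination -T (-1) * i4

theorem alt_flip (w : List Bool) : altWord true w = (altWord false (hat w)).map flipL := by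
  unfold altWord hat
  rw [List.map_map, List.map_map]
  apply List.map_congr_left
  intro b _
  cases b <;> rfl

theorem x1_flip (β : List Letter) : x1 (β.map flipL) = x1 β := by
  unfold x1; rw [List.map_map]; rfl
theorem x2_flip (β : List Letter) : x2 (β.map flipL) = x2 β := by
  unfold x2; rw [List.map_map]; rfl

/-- the value for a closed alternating 3-braid with positive `σ₁` -/
theorem rhs_alt {w : List Bool} {D : Polynomial ℤ} (hD : IsD w D) :
    x1 (altWord false w) + x2 (altWord false w) -
      (rho (altWord false w) 0 0 + rho (altWord false w) 1 1) =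
    (T 2 + 1 + T (-2)) * (-sc w * T 2 * evalS D) := by
  obtain ⟨h1, h2, h3, h4⟩ := rho_alt w
  rw [h1, h4, x1_alt, x2_alt]
  unfold IsD at hD
  have h := congrArg evalS hD
  simp only [map_mul, map_sub, map_add, map_pow, map_one, evalS_X] at h
  have t1 : (T 2 : LP) * T (-2) = 1 := by rw [← LaurentPolynomial.T_add]; simp
  simp only [map_pow, evalS_X]
  linear_combination sc w * h + sc w * evalS D * t1

theorem tri_ne : (T 2 + 1 + T (-2) : LP) ≠ 0 := by
  intro h
  have := congrArg (fun f : LP => f.coeff 2) h
  simp only [coeff_add'] at this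
  have h1 : (1 : LP) = LaurentPolynomial.C 1 := by simp
  rw [h1, LaurentPolynomial.C_apply, LaurentPolynomial.T_apply, LaurentPolynomial.T_apply] at this
  norm_num at this

variable {Λ : OWord → LP}

/-- the Conway polynomial of a closed alternating 3-braid -/
theorem conway_alt (hΛ : IsConway Λ) (ε : Bool) (w : List Bool) :
    ∃ (P D : Polynomial ℤ) (v : List Bool), Λ (closure (altWord ε w)) = toLaurent P ∧
      IsD v D ∧ (v = w ∨ v = hat w) ∧ subst P = -sc v * T 2 * evalS D := by
  obtain ⟨P, hP, hP2⟩ := conway_closure hΛ.1 hΛ.2 (altWord ε w)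
  cases ε
  · obtain ⟨D, hD⟩ := exists_D w.length w rfl
    refine ⟨P, D, w, hP, hD, Or.inl rfl, ?_⟩
    rw [rhs_alt hD] at hP2
    exact mul_left_cancel₀ tri_ne hP2
  · obtain ⟨D, hD⟩ := exists_D (hat w).length (hat w) rfl
    refine ⟨P, D, hat w, hP, hD, Or.inr rfl, ?_⟩
    obtain ⟨r1, r2, -, -⟩ := rho_flip (altWord false (hat w))
    rw [alt_flip, x1_flip, x2_flip, r1, r2, add_comm (rho _ 1 1), rhs_alt hD] at hP2
    exact mul_left_cancel₀ tri_ne hP2

/-- coefficients of `evalS D` -/
theorem coeff_evalS (D : Polynomial ℤ) : (∀ k : ℕ, (evalS D).coeff (2 * k : ℤ) =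
    (-1) ^ k * D.coeff k) ∧ (∀ j : ℤ, (∀ k : ℕ, j ≠ 2 * k) → (evalS D).coeff j = 0) := by
  induction D using Polynomial.induction_on' with
  | add p q hp hq =>
    rw [map_add]
    refine ⟨fun k => ?_, fun j hj => ?_⟩
    · rw [coeff_add', hp.1, hq.1, Polynomial.coeff_add]; ring
    · rw [coeff_add', hp.2 j hj, hq.2 j hj]; rfl
  | monomial n a =>
    have e : evalS (Polynomial.monomial n a) =
        LaurentPolynomial.C (a * (-1) ^ n) * T (2 * n : ℤ) := by
      rw [← Polynomial.C_mul_X_pow_eq_monomial, map_mul, map_pow, evalS_X, neg_pow,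
        LaurentPolynomial.T_pow]
      have : evalS (Polynomial.C a) = LaurentPolynomial.C a := by simp [evalS]
      rw [this, map_mul, map_pow, map_neg, map_one]
      rw [show (n : ℤ) * 2 = 2 * n by ring]
      ring
    rw [e]
    refine ⟨fun k => ?_, fun j hj => ?_⟩
    · rw [coeff_C_mul, LaurentPolynomial.T_apply, Polynomial.coeff_monomial]
      by_cases h : n = k
      · subst h; simp; ring
      · rw [if_neg (by omega), if_neg h]; ring
    · rw [coeff_C_mul, LaurentPolynomial.T_apply, if_neg (fun h => hj n h.symm), mul_zero]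

/-- A Laurent polynomial in `s = t^{1/2}` has the shape predicted by Fox: its nonzero coefficients
are those of `s^{-n}, s^{-n+2}, …, s^n` (that is, of `t^{-n/2}, t^{-n/2+1}, …, t^{n/2}`), they
alternate in sign, and their absolute values `a 0, …, a n` form a trapezoidal sequence. -/
def FoxShape (Δ : LP) : Prop :=
  ∃ (n : ℕ) (a : ℕ → ℤ) (ε : ℤ), (ε = 1 ∨ ε = -1) ∧ (∀ i ≤ n, 0 < a i) ∧
    (∀ i ≤ n, Δ.coeff (2 * i - n) = ε * (-1) ^ i * a i) ∧
    (∀ j : ℤ, (∀ i ≤ n, j ≠ 2 * i - n) → Δ.coeff j = 0) ∧ Trapezoidal n a

theorem pos_aux (n : ℕ) (b : ℤ → ℤ) (h0 : b 0 = 1) (k : ℕ) (hk : 2 * k ≤ n)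
    (hpal : ∀ k, b (n - k) = b k)
    (h1 : ∀ i : ℕ, i < k → b i < b (i + 1))
    (h2 : ∀ i : ℕ, k ≤ i → i < n - k → b i = b (i + 1)) (i : ℕ) (hi : i ≤ n) : 0 < b i := by
  have hup : ∀ i : ℕ, i ≤ k → 0 < b i := by
    intro i
    induction i with
    | zero => intro _; push_cast; omega
    | succ i ih =>
      intro hi
      have a1 := ih (by omega)
      have a2 := h1 i (by omega)
      push_cast
      omega
  have hmid : ∀ i : ℕ, k ≤ i → i ≤ n - k → 0 < b i := by
    intro i
    induction i with
    | zero => intro _ _; push_cast; omega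
    | succ i ih =>
      intro hi hi2
      by_cases hki : k ≤ i
      · have a1 := ih hki (by omega)
        have a2 := h2 i hki (by omega)
        push_cast
        omega
      · exact hup (i + 1) (by omega)
  by_cases c1 : i ≤ k
  · exact hup i c1
  · by_cases c2 : i ≤ n - k
    · exact hmid i (by omega) c2
    · have := hup (n - i) (by omega)
      have e : ((n - i : ℕ) : ℤ) = n - i := by omega
      rw [e, hpal] at this
      exact this

theorem count_hat (w : List Bool) (b : Bool) : (hat w).count b = w.count (!b) := by
  induction w with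
  | nil => rfl
  | cons a w ih => cases a <;> cases b <;> simp_all

/-- **Fox's trapezoidal conjecture for closed alternating 3-braids.** -/
theorem fox_closure (hΛ : IsConway Λ) (ε : Bool) {w : List Bool} (hA : true ∈ w)
    (hB : false ∈ w) : ∃ Δ : LP, IsAlexander Λ (closure (altWord ε w)) Δ ∧ FoxShape Δ := by
  obtain ⟨P, D, v, hP, hD, hv, hs⟩ := conway_alt hΛ ε w
  have hvA : true ∈ v := by
    rcases hv with h | h
    · rw [h]; exact hA
    · rw [h, mem_hat]; exact hB
  have hvB : false ∈ v := by
    rcases hv with h | h
    · rw [h]; exact hB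
    · rw [h, mem_hat]; exact hA
  have hlen : 2 ≤ v.length := by
    have h1 := count_add v
    have h2 : 0 < v.count true := List.count_pos_iff.2 hvA
    have h3 : 0 < v.count false := List.count_pos_iff.2 hvB
    omega
  obtain ⟨hpal, h0, k, -, hk2, hk3, hk4, hk5⟩ := trapD hD hvA hvB
  have hn : ((v.length - 2 : ℕ) : ℤ) = v.length - 2 := by omega
  refine ⟨subst P, ⟨P, hP, rfl⟩, v.length - 2, fun i => cf D i, -(-1) ^ (v.count true), ?_, ?_,
    ?_, ?_, ?_⟩
  · rcases neg_one_pow_eq_or ℤ (v.count true) with h | h <;> rw [h]
    · right; rfl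
    · left; norm_num
  · intro i hi
    exact pos_aux (v.length - 2) (fun k => cf D k) h0 k hk2
      (fun j => by rw [hn]; exact hpal j) hk3 hk4 i hi
  · intro i hi
    have e : subst P = LaurentPolynomial.C (-(-1) ^ (v.count true)) *
        (T (-((v.length : ℤ) - 2)) * evalS D) := by
      rw [hs]; unfold sc
      have : (T (-((v.length : ℤ) - 2)) : LP) = T (-(v.length : ℤ)) * T 2 := by
        rw [← LaurentPolynomial.T_add]; congr 1; ring
      rw [this, map_neg, map_pow, map_neg, map_one]; ring
    rw [e, coeff_C_mul, coeff_T_mul, hn,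
      show 2 * (i : ℤ) - (v.length - 2) - -((v.length : ℤ) - 2) = 2 * i by ring,
      (coeff_evalS D).1]
    simp only [cf_nat]
    ring
  · intro j hj
    have e : subst P = LaurentPolynomial.C (-(-1) ^ (v.count true)) *
        (T (-((v.length : ℤ) - 2)) * evalS D) := by
      rw [hs]; unfold sc
      have : (T (-((v.length : ℤ) - 2)) : LP) = T (-(v.length : ℤ)) * T 2 := by
        rw [← LaurentPolynomial.T_add]; congr 1; ring
      rw [this, map_neg, map_pow, map_neg, map_one]; ring
    rw [e, coeff_C_mul, coeff_T_mul]
    by_cases hc : ∃ m : ℕ, j - -((v.length : ℤ) - 2) = 2 * m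
    · obtain ⟨m, hm⟩ := hc
      rw [hm, (coeff_evalS D).1]
      have hm2 : ¬ m ≤ v.length - 2 := by
        intro hle
        exact hj m hle (by rw [hn]; omega)
      have : cf D m = 0 := by
        rw [← hpal, cf_neg_idx _ (by omega)]
      rw [cf_nat] at this
      rw [this]; ring
    · push Not at hc
      rw [(coeff_evalS D).2 _ hc, mul_zero]
  · exact ⟨k, hk2, hk3, hk4, hk5⟩

end

end Pool.Agent.H757.TB3
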