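import Pool.Graph.R_pool_sql_team_seeded_3997aac3.Q174.TB.Conway

/-!
# Closed 3-braids and their Conway polynomials
-/

namespace Pool.Agent.H757.TB3

open Pool.Agent.Helper454.Wh
open Pool.Agent.Helper454.Wh.OPiece
open LaurentPolynomial (T)
open Polynomial (toLaurent)
open Q174.TBD

noncomputable section

/-- A letter of a 3-braid word: `(p, s)` is the generator `σ₁` (if `p`) or `σ₂` (if not `p`), with
the exponent `1` (if `s`) or `-1` (if not `s`). -/
abbrev Letter : Type := Bool × Bool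

/-- The crossing of a letter, on the strands `0, 1` or `1, 2`. -/
def piece (x : Letter) : OPiece := cr x.2 (if x.1 then 0 else 1)

/-- Three nested maxima: six strands, the first three directed downwards, the other three
upwards. -/
def top3 : OWord := [birth 0 true, birth 1 true, birth 2 true]

/-- Three nested minima. -/
def bot3 : OWord := [death 2, death 1, death 0]

/-- The closure of a 3-braid word, as an oriented link diagram. -/
def closure (β : List Letter) : OWord := top3 ++ β.map piece ++ bot3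

/-- The directions of the six strands. -/
def d3 : ℕ → Bool := insD 2 true (insD 1 true (insD 0 true noD))

theorem d3_0 : d3 0 = true := rfl
theorem d3_1 : d3 1 = true := rfl
theorem d3_2 : d3 2 = true := rfl
theorem d3_3 : d3 3 = false := rfl
theorem d3_4 : d3 4 = false := rfl
theorem d3_5 : d3 5 = false := rfl

theorem swp0 : swpD 0 d3 = d3 := by
  funext k
  simp only [swpD]
  split_ifs with h1 h2
  · rw [h1]; rfl
  · rw [h2]; rfl
  · rfl

theorem swp1 : swpD 1 d3 = d3 := by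
  funext k
  simp only [swpD]
  split_ifs with h1 h2
  · rw [h1]; rfl
  · rw [h2]; rfl
  · rfl

/-! ### algebra: the six coefficients -/

section algebra

variable {R : Type} [CommRing R] {s s' C0 C1 C2 C3 C4 C5 x1 x2 r00 r01 r10 r11 : R}

/-- The values of the two one-dimensional and of the two-dimensional representation of the Hecke
algebra on the element with the coefficients `C0, …, C5` in the basis
`1, σ₁, σ₂, σ₁σ₂, σ₂σ₁, σ₁σ₂σ₁`. -/
structure Rep (s s' C0 C1 C2 C3 C4 C5 x1 x2 r00 r01 r10 r11 : R) : Prop where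
  h1 : C0 + s * (C1 + C2) + s ^ 2 * (C3 + C4) + s ^ 3 * C5 = x1
  h2 : C0 - s' * (C1 + C2) + s' ^ 2 * (C3 + C4) - s' ^ 3 * C5 = x2
  h3 : C0 + s * C1 - s' * C2 - C4 = r00
  h4 : -s' * C1 - C3 + s' ^ 2 * C4 + s' * C5 = r01
  h5 : -s * C2 + C3 - s ^ 2 * C4 + s * C5 = r10
  h6 : C0 - s' * C1 + s * C2 - C3 = r11

theorem Rep.pos0 (h : Rep s s' C0 C1 C2 C3 C4 C5 x1 x2 r00 r01 r10 r11)
    (hs : s * s' = 1) {z : R} (hz : z = s - s') :
    Rep s s' (C1) (C0 + z * C1) (C4) (C5) (C2 + z * C4) (C3 + z * C5)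
      (x1 * s) (x2 * -s') (r00 * s) (r00 * -s' + r01 * -s') (r10 * s) (r10 * -s' + r11 * -s') := by
  obtain ⟨h1, h2, h3, h4, h5, h6⟩ := h
  subst hz
  refine ⟨?_, ?_, ?_, ?_, ?_, ?_⟩
  · linear_combination (s) * h1 + (- C1 - s * C4 - s^2 * C5) * hs
  · linear_combination (- s') * h2 + (- C1 + s' * C4 - s'^2 * C5) * hs
  · linear_combination (s) * h3 + (- C1 + C2) * hs
  · linear_combination (- s') * h3 + (- s') * h4 + (C5 + s' * C4) * hs
  · linear_combination (s) * h5 + (- C5 + s * C4) * hs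
  · linear_combination (- s') * h5 + (- s') * h6 + (- C1 + C5 - s * C4) * hs
theorem Rep.pos1 (h : Rep s s' C0 C1 C2 C3 C4 C5 x1 x2 r00 r01 r10 r11)
    (hs : s * s' = 1) {z : R} (hz : z = s - s') :
    Rep s s' (C2) (C3) (C0 + z * C2) (C1 + z * C3) (C5) (C4 + z * C5)
      (x1 * s) (x2 * -s') (r00 * -s' + r01 * -s) (r01 * s) (r10 * -s' + r11 * -s) (r11 * s) := by
  obtain ⟨h1, h2, h3, h4, h5, h6⟩ := h
  subst hz
  refine ⟨?_, ?_, ?_, ?_, ?_, ?_⟩
  · linear_combination (s) * h1 + (- C2 - s * C3 - s^2 * C5) * hs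
  · linear_combination (- s') * h2 + (- C2 + s' * C3 - s'^2 * C5) * hs
  · linear_combination (- s') * h3 + (- s) * h4 + (- C2 + C5 + s' * C4) * hs
  · linear_combination (s) * h4 + (C1 - s' * C4) * hs
  · linear_combination (- s') * h5 + (- s) * h6 + (- C1 - s * C4) * hs
  · linear_combination (s) * h6 + (C1 - C2) * hs
theorem Rep.neg0 (h : Rep s s' C0 C1 C2 C3 C4 C5 x1 x2 r00 r01 r10 r11)
    (hs : s * s' = 1) {z : R} (hz : z = s - s') :
    Rep s s' (C1 - z * C0) (C0) (C4 - z * C2) (C5 - z * C3) (C2) (C3)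
      (x1 * s') (x2 * -s) (r00 * s') (r00 * -s' + r01 * -s) (r10 * s') (r10 * -s' + r11 * -s) := by
  obtain ⟨h1, h2, h3, h4, h5, h6⟩ := h
  subst hz
  refine ⟨?_, ?_, ?_, ?_, ?_, ?_⟩
  · linear_combination (s') * h1 + (- C1 - s * C4 - s^2 * C5) * hs
  · linear_combination (- s) * h2 + (- C1 + s' * C4 - s'^2 * C5) * hs
  · linear_combination (s') * h3 + (- C1 + C2) * hs
  · linear_combination (- s') * h3 + (- s) * h4 + (C5 + s' * C4) * hs
  · linear_combination (s') * h5 + (- C5 + s * C4) * hs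
  · linear_combination (- s') * h5 + (- s) * h6 + (- C1 + C5 - s * C4) * hs
theorem Rep.neg1 (h : Rep s s' C0 C1 C2 C3 C4 C5 x1 x2 r00 r01 r10 r11)
    (hs : s * s' = 1) {z : R} (hz : z = s - s') :
    Rep s s' (C2 - z * C0) (C3 - z * C1) (C0) (C1) (C5 - z * C4) (C4)
      (x1 * s') (x2 * -s) (r00 * -s + r01 * -s) (r01 * s') (r10 * -s + r11 * -s) (r11 * s') := by
  obtain ⟨h1, h2, h3, h4, h5, h6⟩ := h
  subst hz
  refine ⟨?_, ?_, ?_, ?_, ?_, ?_⟩
  · linear_combination (s') * h1 + (- C2 - s * C3 - s^2 * C5) * hs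
  · linear_combination (- s) * h2 + (- C2 + s' * C3 - s'^2 * C5) * hs
  · linear_combination (- s) * h3 + (- s) * h4 + (- C2 + C5 + s' * C4) * hs
  · linear_combination (s') * h4 + (C1 - s' * C4) * hs
  · linear_combination (- s) * h5 + (- s) * h6 + (- C1 - s * C4) * hs
  · linear_combination (s') * h6 + (C1 - C2) * hs

theorem Rep.final (h : Rep s s' C0 C1 C2 C3 C4 C5 x1 x2 r00 r01 r10 r11)
    (hs : s * s' = 1) {z : R} (hz : z = s - s') :
    (s ^ 2 + 1 + s' ^ 2) * (C3 + C4 + z * C5) = x1 + x2 - (r00 + r11) := by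
  obtain ⟨h1, h2, h3, h4, h5, h6⟩ := h
  subst hz
  linear_combination h1 + h2 - h3 - h6 + (s' * C5 - s * C5) * hs

end algebra

abbrev LP : Type := LaurentPolynomial ℤ

variable {Λ : OWord → LP} (hΛ : HomflyRules (1 : LP) 1 (T 1) Λ)

section
omit hΛ
theorem mem_top : ap (extd Λ) top3 ∈ S LP Λ 6 d3 :=
  Submodule.subset_span ⟨top3, by simp [top3, Pool.Agent.Helper454.Wh.below, OPiece.below, d3], rfl⟩

theorem mem_cr {f : OWord → LP} (hf : f ∈ S LP Λ 6 d3) (c : Bool) {i : ℕ} (hi : i < 2) :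
    st f (cr c i) ∈ S LP Λ 6 d3 := by
  have h := cr_mem hf c (i := i) (by omega)
  have : i = 0 ∨ i = 1 := by omega
  rcases this with h' | h' <;> subst h'
  · rwa [swp0] at h
  · rwa [swp1] at h
end

include hΛ

theorem neg_eq {f : OWord → LP} (hf : f ∈ S LP Λ 6 d3) {i : ℕ} (hi : i < 2) :
    st f (neg i) = st f (pos i) - (T 1 : LP) • f := by
  have hd : d3 i = d3 (i + 1) := by
    have : i = 0 ∨ i = 1 := by omega
    rcases this with h' | h' <;> subst h' <;> rfl
  have h := skein_par hΛ hf (i := i) (by omega) hd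
  rw [one_smul, one_smul] at h
  rw [← h]; abel

theorem pospos {f : OWord → LP} (hf : f ∈ S LP Λ 6 d3) {i : ℕ} (hi : i < 2) :
    st (st f (pos i)) (pos i) = f + (T 1 : LP) • st f (pos i) := by
  have h := neg_eq hΛ (mem_cr hf true hi) hi
  rw [cr_true, pn hΛ (T_of_mem hf) (by omega)] at h
  nth_rewrite 2 [h]
  abel

theorem braid {f : OWord → LP} (hf : f ∈ S LP Λ 6 d3) :
    st (st (st f (pos 1)) (pos 0)) (pos 1) = st (st (st f (pos 0)) (pos 1)) (pos 0) :=
  (br hΛ (T_of_mem hf) (i := 0) (by omega)).symm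

omit hΛ in
/-- the combination of the six basis elements -/
def comb (Λ : OWord → LP) (c0 c1 c2 c3 c4 c5 : Polynomial ℤ) : OWord → LP :=
  toLaurent c0 • ap (extd Λ) top3 +
  toLaurent c1 • st (ap (extd Λ) top3) (pos 0) +
  toLaurent c2 • st (ap (extd Λ) top3) (pos 1) +
  toLaurent c3 • st (st (ap (extd Λ) top3) (pos 0)) (pos 1) +
  toLaurent c4 • st (st (ap (extd Λ) top3) (pos 1)) (pos 0) +
  toLaurent c5 • st (st (st (ap (extd Λ) top3) (pos 0)) (pos 1)) (pos 0)

omit hΛ in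
theorem comb_mem (c0 c1 c2 c3 c4 c5 : Polynomial ℤ) :
    comb Λ c0 c1 c2 c3 c4 c5 ∈ S LP Λ 6 d3 := by
  have m0 := mem_top (Λ := Λ)
  have m1 := mem_cr m0 true (i := 0) (by norm_num)
  have m2 := mem_cr m0 true (i := 1) (by norm_num)
  have m3 := mem_cr m1 true (i := 1) (by norm_num)
  have m4 := mem_cr m2 true (i := 0) (by norm_num)
  have m5 := mem_cr m3 true (i := 0) (by norm_num)
  unfold comb
  exact Submodule.add_mem _ (Submodule.add_mem _ (Submodule.add_mem _ (Submodule.add_mem _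
    (Submodule.add_mem _ (Submodule.smul_mem _ _ m0) (Submodule.smul_mem _ _ m1))
    (Submodule.smul_mem _ _ m2)) (Submodule.smul_mem _ _ m3)) (Submodule.smul_mem _ _ m4))
    (Submodule.smul_mem _ _ m5)

theorem comb_pos0 (c0 c1 c2 c3 c4 c5 : Polynomial ℤ) :
    st (comb Λ c0 c1 c2 c3 c4 c5) (pos 0) =
      comb Λ c1 (c0 + Polynomial.X * c1) c4 c5 (c2 + Polynomial.X * c4)
        (c3 + Polynomial.X * c5) := by
  have m0 := mem_top (Λ := Λ)
  have m1 := mem_cr m0 true (i := 0) (by norm_num)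
  have m2 := mem_cr m0 true (i := 1) (by norm_num)
  have m3 := mem_cr m1 true (i := 1) (by norm_num)
  simp only [cr_true] at m1 m2 m3
  have e1 := pospos hΛ m0 (i := 0) (by norm_num)
  have e4 := pospos hΛ m2 (i := 0) (by norm_num)
  have e5 := pospos hΛ m3 (i := 0) (by norm_num)
  unfold comb
  simp only [st_add, st_smul, e1, e4, e5, map_add, map_mul, Polynomial.toLaurent_X, smul_add,
    add_smul, smul_smul]
  simp only [mul_comm (T 1 : LP)]
  abel

theorem comb_pos1 (c0 c1 c2 c3 c4 c5 : Polynomial ℤ) :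
    st (comb Λ c0 c1 c2 c3 c4 c5) (pos 1) =
      comb Λ c2 c3 (c0 + Polynomial.X * c2) (c1 + Polynomial.X * c3) c5
        (c4 + Polynomial.X * c5) := by
  have m0 := mem_top (Λ := Λ)
  have m1 := mem_cr m0 true (i := 0) (by norm_num)
  have m2 := mem_cr m0 true (i := 1) (by norm_num)
  have m3 := mem_cr m1 true (i := 1) (by norm_num)
  simp only [cr_true] at m1 m2 m3
  have e2 := pospos hΛ m0 (i := 1) (by norm_num)
  have e3 := pospos hΛ m1 (i := 1) (by norm_num)
  have e4 := braid hΛ m0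
  have e1 := pospos hΛ m0 (i := 0) (by norm_num)
  have e5 := braid hΛ m1
  rw [e1] at e5
  simp only [st_add, st_smul] at e5
  unfold comb
  have e5' : st (st (st (st (ap (extd Λ) top3) (pos 0)) (pos 1)) (pos 0)) (pos 1) =
      st (st (ap (extd Λ) top3) (pos 1)) (pos 0) +
      (T 1 : LP) • st (st (st (ap (extd Λ) top3) (pos 0)) (pos 1)) (pos 0) := e5
  simp only [st_add, st_smul, e2, e3, e4, e5', map_add, map_mul, Polynomial.toLaurent_X, smul_add,
    add_smul, smul_smul]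
  simp only [mul_comm (T 1 : LP)]
  abel

omit hΛ in
theorem comb_sub (c0 c1 c2 c3 c4 c5 e0 e1 e2 e3 e4 e5 : Polynomial ℤ) :
    comb Λ e0 e1 e2 e3 e4 e5 - (T 1 : LP) • comb Λ c0 c1 c2 c3 c4 c5 =
    comb Λ (e0 - Polynomial.X * c0) (e1 - Polynomial.X * c1) (e2 - Polynomial.X * c2)
      (e3 - Polynomial.X * c3) (e4 - Polynomial.X * c4) (e5 - Polynomial.X * c5) := by
  unfold comb
  simp only [map_sub, map_mul, Polynomial.toLaurent_X, smul_add, sub_smul, smul_smul]
  abel

theorem comb_neg0 (c0 c1 c2 c3 c4 c5 : Polynomial ℤ) :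
    st (comb Λ c0 c1 c2 c3 c4 c5) (neg 0) =
      comb Λ (c1 - Polynomial.X * c0) c0 (c4 - Polynomial.X * c2) (c5 - Polynomial.X * c3) c2
        c3 := by
  rw [neg_eq hΛ (comb_mem _ _ _ _ _ _) (by norm_num), comb_pos0 hΛ, comb_sub]
  congr 1 <;> ring

theorem comb_neg1 (c0 c1 c2 c3 c4 c5 : Polynomial ℤ) :
    st (comb Λ c0 c1 c2 c3 c4 c5) (neg 1) =
      comb Λ (c2 - Polynomial.X * c0) (c3 - Polynomial.X * c1) c0 c1 (c5 - Polynomial.X * c4)
        c4 := by
  rw [neg_eq hΛ (comb_mem _ _ _ _ _ _) (by norm_num), comb_pos1 hΛ, comb_sub]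
  congr 1 <;> ring

end

end Pool.Agent.H757.TB3
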