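import Pool.Agent.H757.TB3.Mat

/-!
# Coefficients with integer index, and the basic coefficient identities
-/

namespace Pool.Agent.H757.TB3

open Polynomial Matrix

noncomputable section

/-- coefficient with an integer index -/
def cf (p : ℤ[X]) (i : ℤ) : ℤ := if 0 ≤ i then p.coeff i.toNat else 0

theorem cf_neg_idx (p : ℤ[X]) {i : ℤ} (h : i < 0) : cf p i = 0 := by
  simp [cf, not_le.mpr h]

theorem cf_nat (p : ℤ[X]) (i : ℕ) : cf p (i : ℤ) = p.coeff i := by simp [cf]

@[simp] theorem cf_zero (i : ℤ) : cf 0 i = 0 := by simp [cf]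
@[simp] theorem cf_add (p q : ℤ[X]) (i : ℤ) : cf (p + q) i = cf p i + cf q i := by
  unfold cf; split_ifs <;> simp
@[simp] theorem cf_sub (p q : ℤ[X]) (i : ℤ) : cf (p - q) i = cf p i - cf q i := by
  unfold cf; split_ifs <;> simp
@[simp] theorem cf_neg (p : ℤ[X]) (i : ℤ) : cf (-p) i = - cf p i := by
  unfold cf; split_ifs <;> simp
@[simp] theorem cf_X_mul (p : ℤ[X]) (i : ℤ) : cf (X * p) i = cf p (i - 1) := by
  unfold cf
  rcases lt_trichotomy i 0 with h | h | h
  · rw [if_neg (by omega), if_neg (by omega)]
  · subst h; simp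
  · rw [if_pos (by omega), if_pos (by omega)]
    obtain ⟨k, rfl⟩ : ∃ k : ℕ, i = k + 1 := ⟨(i - 1).toNat, by omega⟩
    have h1 : ((k : ℤ) + 1).toNat = k + 1 := by omega
    have h2 : ((k : ℤ) + 1 - 1).toNat = k := by omega
    rw [h1, h2, coeff_X_mul]
theorem cf_one (i : ℤ) : cf 1 i = if i = 0 then 1 else 0 := by
  unfold cf
  rcases lt_trichotomy i 0 with h | h | h
  · rw [if_neg (by omega), if_neg (by omega)]
  · subst h; simp
  · rw [if_pos (by omega), if_neg (by omega), coeff_one, if_neg (by omega)]
@[simp] theorem cf_one_sub (p : ℤ[X]) (i : ℤ) :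
    cf ((1 - X) * p) i = cf p i - cf p (i - 1) := by
  rw [sub_mul, one_mul, cf_sub, cf_X_mul]

theorem cf_ext {p q : ℤ[X]} (h : ∀ i, cf p i = cf q i) : p = q := by
  ext i
  have := h i
  rwa [cf_nat, cf_nat] at this

/-- reversal -/
theorem rev (w : List Bool) : ∀ u : ℤ,
    cf (F w) (w.length - u) = cf (K (hat w)) u ∧ cf (G w) (w.length - u) = cf (H (hat w)) u ∧
    cf (H w) (w.length - u) = cf (G (hat w)) u ∧ cf (K w) (w.length - u) = cf (F (hat w)) u := by
  induction w with
  | nil =>
    intro u
    simp only [List.length_nil, hat_nil, F_nil, G_nil, H_nil, K_nil, cf_one, cf_zero,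
      Nat.cast_zero]
    refine ⟨?_, trivial, trivial, ?_⟩ <;>
    · split_ifs with h1 h2 h2 <;> first | rfl | omega
  | cons a w ih =>
    intro u
    have e1 : ((w.length : ℤ) + 1 - u) = w.length - (u - 1) := by ring
    obtain ⟨i1, i2, i3, i4⟩ := ih u
    obtain ⟨j1, j2, j3, j4⟩ := ih (u - 1)
    cases a
    · simp only [hat_cons, Bool.not_false, F_B, G_B, H_B, K_B, F_A, G_A, H_A, K_A,
        List.length_cons, Nat.cast_add, Nat.cast_one, cf_add, cf_X_mul, e1]
      rw [show ((w.length : ℤ) - (u - 1) - 1) = w.length - u by ring]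
      refine ⟨i1, i2, ?_, ?_⟩
      · rw [i1, j3]; ring
      · rw [i2, j4]; ring
    · simp only [hat_cons, Bool.not_true, F_B, G_B, H_B, K_B, F_A, G_A, H_A, K_A,
        List.length_cons, Nat.cast_add, Nat.cast_one, cf_add, cf_X_mul, e1]
      rw [show ((w.length : ℤ) - (u - 1) - 1) = w.length - u by ring]
      refine ⟨?_, ?_, j3, j4⟩
      · rw [i1, j3]; ring
      · rw [i2, j4]; ring

theorem revF (w : List Bool) (u : ℤ) : cf (F w) (w.length - u) = cf (K (hat w)) u :=
  (rev w u).1
theorem revK (w : List Bool) (u : ℤ) : cf (K w) (w.length - u) = cf (F (hat w)) u :=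
  (rev w u).2.2.2
theorem revF' (w : List Bool) (u : ℤ) : cf (K w) u = cf (F (hat w)) (w.length - u) := by
  have := revF (hat w) u
  rw [hat_hat, length_hat] at this
  exact this.symm

/-- `r(V)`: the rank generating polynomial of the fence of the word `V`. -/
def R (w : List Bool) : ℤ[X] := X * F w + X * G w + H w + K w

theorem F_AVB (w : List Bool) : F (true :: (w ++ [false])) = X * R w := by
  rw [F_A, F_append, H_append, F_sB, H_sB]; unfold R; ring
theorem F_VA (w : List Bool) : F (w ++ [true]) = X * F w := by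
  rw [F_append, F_sA, H_sA]; ring
theorem K_BVA (w : List Bool) : K (false :: (w ++ [true])) = R w := by
  rw [K_B, G_append, K_append, G_sA, K_sA]; unfold R; ring

/-- `η(V) = f(V) - f(V̂)`. -/
def eta (w : List Bool) : ℤ[X] := F w - F (hat w)

theorem idS (w : List Bool) : K w - F (hat w) = (1 - X) * (G w + G (hat w)) := by
  linear_combination (conj w).2.1

theorem idE (w : List Bool) : X * G w - H (hat w) = (1 - X) * eta w := by
  unfold eta
  have := (conj (hat w)).1
  rw [hat_hat] at this
  linear_combination -this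

theorem idFK (w : List Bool) : F w + K w = F (hat w) + K (hat w) := by
  have h1 := idS w
  have h2 := idS (hat w)
  rw [hat_hat] at h2
  linear_combination h1 - h2

/-- identity (A). -/
theorem idA (w : List Bool) :
    (1 - X) * R w = (1 - X) * eta w + K w - X * (X * F (hat w)) := by
  have hS := idS w
  have hE' := idE (hat w)
  unfold R
  unfold eta at *
  rw [hat_hat] at hE'
  linear_combination (-(1 - X)) * hE' - X * hS

/-- identity (B). -/
theorem idB (w : List Bool) :
    (1 - X) * R w = K (hat w) - X * (X * F w) - X * ((1 - X) * eta w) := by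
  have h := idA w
  have h2 := idFK w
  unfold eta at *
  linear_combination h + h2

/-- `γ` identity. -/
theorem idG (w : List Bool) : R (hat w) - X * R w = K w - X * (X * F (hat w)) := by
  have hS := idS w
  have hS' := idS (hat w)
  have hE := idE w
  have hE' := idE (hat w)
  unfold R
  unfold eta at *
  rw [hat_hat] at *
  linear_combination (-(1 : ℤ[X])) * hE + X * hE' + hS' - (1 + X) * hS

theorem eta_AVB (w : List Bool) :
    eta (true :: (w ++ [false])) = X * (R w - X * F (hat w)) := by
  unfold eta
  rw [F_AVB, hat_cons, hat_append, Bool.not_true, F_B, hat_cons, Bool.not_false, hat_nil, F_VA]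
  ring

/-- identity (C). -/
theorem idC (w : List Bool) :
    (1 - X) * (R w - X * F (hat w)) = K (hat w) - X * F w := by
  have h := idB w
  unfold eta at *
  linear_combination h

theorem eta_hat (w : List Bool) : eta (hat w) = - eta w := by
  unfold eta; rw [hat_hat]; ring

theorem eta_AUA (w : List Bool) : eta (true :: (w ++ [true])) = X * eta w := by
  have h := (conj w).1
  unfold eta
  rw [hat_cons, hat_append, hat_cons, hat_nil, Bool.not_true, F_A, F_append, H_append, F_B,
    F_append, F_sA, H_sA, F_sB, H_sB]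
  linear_combination X * h

theorem eta_BUB (w : List Bool) : eta (false :: (w ++ [false])) = X * eta w := by
  have h := eta_AUA (hat w)
  have h2 := eta_hat (true :: (hat w ++ [true]))
  simp only [hat_cons, hat_append, hat_nil, Bool.not_true, hat_hat] at h2
  rw [h2, h, eta_hat]; ring

theorem eta_nil : eta [] = 0 := by simp [eta]
theorem eta_single (a : Bool) : eta [a] = 0 := by
  cases a <;> simp [eta, F_A, F_B]

end

end Pool.Agent.H757.TB3
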