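import Pool.Agent.H757.TB3.Zlem

/-!
# The polynomial `D`
-/

namespace Pool.Agent.H757.TB3

open Polynomial Matrix

noncomputable section

/-- `(t² - t + 1) D = tr M(w) - t^a - t^b`. -/
def IsD (w : List Bool) (D : ℤ[X]) : Prop :=
  (X ^ 2 - X + 1) * D = F w + K w - X ^ (w.count true) - X ^ (w.count false)

theorem kappa_ne : (X ^ 2 - X + 1 : ℤ[X]) ≠ 0 := by
  intro h
  have := congrArg (fun p => cf p 0) h
  simp only [cf_add, cf_sub, cf_zero, cf_one] at this
  rw [pow_two, cf_X_mul, cf_neg_idx _ (by norm_num)] at this
  rw [show (X : ℤ[X]) = X * 1 by ring, cf_X_mul, cf_neg_idx _ (by norm_num)] at this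
  norm_num at this

theorem IsD.unique {w : List Bool} {D D' : ℤ[X]} (h : IsD w D) (h' : IsD w D') : D = D' :=
  mul_left_cancel₀ kappa_ne (h.trans h'.symm)

theorem IsD.rot {u v : List Bool} {D : ℤ[X]} (h : IsD (u ++ v) D) : IsD (v ++ u) D := by
  unfold IsD at *
  rw [F_append, K_append, List.count_append, List.count_append] at *
  rw [h]
  rw [add_comm (List.count true u), add_comm (List.count false u)]
  ring

/-- The step: removing an adjacent pair `BA`. -/
theorem IsD.step {w : List Bool} {D : ℤ[X]} (h : IsD w D) :
    IsD (false :: true :: w) (X * D + R (hat w) - X * F w) := by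
  unfold IsD at *
  have e1 := idS w
  have e2 := idE (hat w)
  have e3 := idS (hat w)
  have e4 := idE w
  unfold R
  unfold eta at *
  rw [hat_hat] at *
  have c1 : (false :: true :: w).count true = w.count true + 1 := by simp
  have c2 : (false :: true :: w).count false = w.count false + 1 := by simp
  rw [c1, c2, pow_succ, pow_succ, F_B, F_A, K_B, G_A, K_A]
  linear_combination X * h + (X ^ 2 - X + 1) * (e3 - e4) + X * e2 - e1

/-- rotation to the form `B A ...` -/
theorem exists_rot (w : List Bool) (h1 : true ∈ w) (h2 : false ∈ w) :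
    ∃ u v x, w = u ++ v ∧ v ++ u = false :: true :: x := by
  obtain ⟨u, v, rfl⟩ := List.append_of_mem h2
  -- `u ++ false :: v`
  have h3 : true ∈ v ++ u := by
    simp only [List.mem_append, List.mem_cons] at h1 ⊢
    tauto
  -- the first `A` in `v ++ u`
  have key : ∀ y : List Bool, true ∈ y → ∃ (m : ℕ) (z : List Bool),
      false :: y = List.replicate m false ++ false :: true :: z := by
    intro y
    induction y with
    | nil => intro h; simp at h
    | cons a y ih =>
      intro h
      cases a
      · have : true ∈ y := by simpa using h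
        obtain ⟨m, z, hz⟩ := ih this
        exact ⟨m + 1, z, by rw [hz, List.replicate_succ]; rfl⟩
      · exact ⟨0, y, rfl⟩
  obtain ⟨m, z, hz⟩ := key (v ++ u) h3
  -- rotate twice
  have e1 : false :: (v ++ u) = (false :: v) ++ u := rfl
  rw [e1] at hz
  -- `(false :: v) ++ u = rep ++ (false :: true :: z)`
  rcases List.append_eq_append_iff.1 hz with ⟨a', ha, hb⟩ | ⟨a', ha, hb⟩
  · -- rep = false :: v ++ a', u = a' ++ (false :: true :: z)
    refine ⟨a', (false :: true :: z) ++ (false :: v), z ++ (false :: v) ++ a', ?_, ?_⟩
    · rw [hb]; simp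
    · simp
  · -- false :: v = rep ++ a', (false::true::z) = a' ++ u
    refine ⟨u ++ List.replicate m false, a', z ++ List.replicate m false, ?_, ?_⟩
    · rw [ha]; simp
    · rw [← List.append_assoc, ← hb]; simp

theorem pureA (n : ℕ) : F (List.replicate n true) = X ^ n ∧ H (List.replicate n true) = 0 ∧
    K (List.replicate n true) = 1 := by
  induction n with
  | zero => simp
  | succ n ih =>
    obtain ⟨h1, h2, h3⟩ := ih
    rw [List.replicate_succ, F_A, H_A, K_A, h1, h2, h3]
    exact ⟨by ring, rfl, rfl⟩

theorem pureB (n : ℕ) : F (List.replicate n false) = X ^ n ∧ G (List.replicate n false) = 0 ∧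
    K (List.replicate n false) = 1 := by
  induction n with
  | zero => simp
  | succ n ih =>
    obtain ⟨h1, h2, h3⟩ := ih
    rw [List.replicate_succ, F_B, G_B, K_B, h1, h2, h3]
    exact ⟨by ring, by ring, by ring⟩

theorem eq_rep {w : List Bool} {b : Bool} (h : b ∉ w) : w = List.replicate w.length (!b) := by
  rw [List.eq_replicate_iff]
  refine ⟨rfl, fun c hc => ?_⟩
  have : c ≠ b := fun e => h (e ▸ hc)
  cases b <;> cases c <;> simp_all

theorem pure_F {w : List Bool} (hw : ¬ (true ∈ w ∧ false ∈ w)) :
    F w = X ^ w.length ∧ K w = 1 ∧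
      (X : ℤ[X]) ^ (w.count true) + X ^ (w.count false) = X ^ w.length + 1 := by
  by_cases h1 : true ∈ w
  · have h2 : false ∉ w := fun h => hw ⟨h1, h⟩
    have e := eq_rep h2
    obtain ⟨a1, a2, a3⟩ := pureA w.length
    have e' : w = List.replicate w.length true := e
    rw [← e'] at a1 a3
    refine ⟨a1, a3, ?_⟩
    have c2 : w.count false = 0 := List.count_eq_zero.2 h2
    have c1 : w.count true = w.length := by
      conv_lhs => rw [e']
      simp
    rw [c1, c2, pow_zero]
  · have e := eq_rep h1
    obtain ⟨a1, a2, a3⟩ := pureB w.length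
    have e' : w = List.replicate w.length false := e
    rw [← e'] at a1 a3
    refine ⟨a1, a3, ?_⟩
    have c2 : w.count true = 0 := List.count_eq_zero.2 h1
    have c1 : w.count false = w.length := by
      conv_lhs => rw [e']
      simp
    rw [c1, c2, pow_zero, add_comm]

theorem IsD.pure {w : List Bool} {D : ℤ[X]} (h : IsD w D) (hw : ¬ (true ∈ w ∧ false ∈ w)) :
    D = 0 := by
  obtain ⟨h1, h2, h3⟩ := pure_F hw
  unfold IsD at h
  have : (X ^ 2 - X + 1) * D = 0 := by
    rw [h, h1, h2]; linear_combination -h3
  exact (mul_eq_zero.1 this).resolve_left kappa_ne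

theorem mem_hat (w : List Bool) (b : Bool) : b ∈ hat w ↔ (!b) ∈ w := by
  unfold hat
  rw [List.mem_map]
  constructor
  · rintro ⟨c, hc, rfl⟩; simpa using hc
  · intro h; exact ⟨_, h, by simp⟩

theorem pure_hatF {w : List Bool} (hw : ¬ (true ∈ w ∧ false ∈ w)) :
    F (hat w) = X ^ w.length := by
  have := (pure_F (w := hat w) (by rw [mem_hat, mem_hat]; simpa [and_comm] using hw)).1
  rwa [length_hat] at this

theorem exists_D : ∀ (n : ℕ) (w : List Bool), w.length = n → ∃ D, IsD w D := by
  intro n
  induction n using Nat.strong_induction_on with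
  | _ n IH =>
  intro w hn
  by_cases hw : true ∈ w ∧ false ∈ w
  · obtain ⟨u, v, x, h1, h2⟩ := exists_rot w hw.1 hw.2
    have hl : x.length < n := by
      have e1 : (v ++ u).length = x.length + 2 := by rw [h2]; simp
      have e2 : w.length = u.length + v.length := by rw [h1]; simp
      rw [List.length_append] at e1
      omega
    obtain ⟨D, hD⟩ := IH x.length hl x rfl
    refine ⟨X * D + R (hat x) - X * F x, ?_⟩
    have e := hD.step
    rw [← h2] at e
    have e2 := e.rot
    rw [← h1] at e2
    exact e2
  · obtain ⟨h1, h2, h3⟩ := pure_F hw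
    refine ⟨0, ?_⟩
    unfold IsD
    rw [h1, h2]; linear_combination h3

/-- difference of consecutive coefficients -/
def al (D : ℤ[X]) (k : ℤ) : ℤ := cf D k - cf D (k - 1)

theorem al_step {x : List Bool} {D : ℤ[X]} (k : ℤ) :
    al (X * D + R (hat x) - X * F x) k =
      al D (k - 1) + (cf (F (hat x)) (x.length - k) - cf (F (hat x)) (k - 1)) := by
  have h := congrArg (fun p => cf p k) (idC (hat x))
  rw [hat_hat] at h
  simp only [cf_one_sub, cf_sub, cf_X_mul] at h
  unfold al
  simp only [cf_sub, cf_add, cf_X_mul]
  rw [revF' x k] at h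
  linarith

theorem cf_X_pow (n : ℕ) (i : ℤ) : cf (X ^ n) i = if i = n then 1 else 0 := by
  have := cf_X_pow_mul n 1 i
  rw [mul_one, cf_one] at this
  rw [this]
  split_ifs <;> omega

/-- **Main theorem about `D`.** -/
theorem main : ∀ (n : ℕ) (w : List Bool) (D : ℤ[X]), w.length = n → IsD w D →
    true ∈ w → false ∈ w →
    cf D 0 = 1 ∧ (∀ k : ℤ, 2 * k + 2 ≤ n → 0 ≤ al D k) ∧
    (∀ k : ℤ, 1 ≤ k → 2 * (k + 1) + 2 ≤ n → al D k = 0 → al D (k + 1) = 0) ∧
    (∀ k : ℤ, 0 ≤ k → k + 1 ≤ w.count true → k + 1 ≤ w.count false → 0 < al D k) := by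
  intro n
  induction n using Nat.strong_induction_on with
  | _ n IH =>
  intro w D hn hD hA hB
  obtain ⟨u, v, x, h1, h2⟩ := exists_rot w hA hB
  have hlen : n = x.length + 2 := by
    have e1 : (v ++ u).length = x.length + 2 := by rw [h2]; simp
    have e2 : w.length = u.length + v.length := by rw [h1]; simp
    rw [List.length_append] at e1
    omega
  have hcA : w.count true = x.count true + 1 := by
    have e1 : (v ++ u).count true = x.count true + 1 := by rw [h2]; simp
    rw [List.count_append] at e1
    rw [h1, List.count_append]; omega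
  have hcB : w.count false = x.count false + 1 := by
    have e1 : (v ++ u).count false = x.count false + 1 := by rw [h2]; simp
    rw [List.count_append] at e1
    rw [h1, List.count_append]; omega
  obtain ⟨D', hD'⟩ := exists_D x.length x rfl
  have hDD : D = X * D' + R (hat x) - X * F x := by
    have e1 := hD'.step
    rw [h1] at hD
    have e2 := hD.rot
    rw [h2] at e2
    exact e2.unique e1
  have hal : ∀ k, al D k = al D' (k - 1) +
      (cf (F (hat x)) (x.length - k) - cf (F (hat x)) (k - 1)) := by
    intro k; rw [hDD]; exact al_step k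
  have hPx : ∀ {i j : ℤ}, i ≤ j → i + j ≤ x.length → cf (F (hat x)) i ≤ cf (F (hat x)) j := by
    intro i j hi hj
    exact P (hat x) hi (by rw [length_hat]; exact hj)
  have hal0 : ∀ E : ℤ[X], ∀ k : ℤ, k < 0 → al E k = 0 := by
    intro E k hk
    unfold al
    rw [cf_neg_idx _ hk, cf_neg_idx _ (by omega)]; rfl
  have h0 : al D 0 = 1 := by
    rw [hal, hal0 _ _ (by norm_num), sub_zero, cf_neg_idx _ (show (0 : ℤ) - 1 < 0 by norm_num)]
    have := cf_F_top (hat x)
    rw [length_hat] at this
    rw [this]; rfl
  have h00 : cf D 0 = 1 := by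
    have : al D 0 = cf D 0 - cf D (0 - 1) := rfl
    rw [cf_neg_idx _ (show (0 : ℤ) - 1 < 0 by norm_num)] at this
    linarith
  by_cases hx : true ∈ x ∧ false ∈ x
  · obtain ⟨i1, i2, i3, i4⟩ := IH x.length (by omega) x D' rfl hD' hx.1 hx.2
    have j1 : al D' 0 = 1 := by
      unfold al
      rw [i1, cf_neg_idx _ (show (0 : ℤ) - 1 < 0 by norm_num)]; rfl
    refine ⟨h00, ?_, ?_, ?_⟩
    · intro k hk
      rw [hal]
      have a1 := i2 (k - 1) (by omega)
      have a2 := hPx (i := k - 1) (j := x.length - k) (by omega) (by omega)
      linarith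
    · intro k hk1 hk hz
      rw [hal] at hz
      have a1 := i2 (k - 1) (by omega)
      have a2 := hPx (i := k - 1) (j := x.length - k) (by omega) (by omega)
      have b1 : al D' (k - 1) = 0 := by linarith
      have b2 : cf (F (hat x)) (k - 1) = cf (F (hat x)) (x.length - k) := by linarith
      by_cases hk' : k = 1
      · exfalso
        rw [hk'] at b1
        rw [show (1 : ℤ) - 1 = 0 by norm_num, j1] at b1
        norm_num at b1
      · have c1 := i3 (k - 1) (by omega) (by omega) b1
        rw [show k - 1 + 1 = k by ring] at c1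
        have z := Z (hat x) (i := k - 1) (j := x.length - k) (by omega) (by omega)
          (by rw [length_hat]; omega) b2
        have p1 := hPx (i := k - 1) (j := k) (by omega) (by omega)
        have p2 := hPx (i := k) (j := x.length - k - 1) (by omega) (by omega)
        rw [hal, show k + 1 - 1 = k by ring, c1,
          show (x.length : ℤ) - (k + 1) = x.length - k - 1 by ring]
        linarith
    · intro k hk0 hkA hkB
      rw [hcA] at hkA
      rw [hcB] at hkB
      by_cases hk' : k = 0
      · rw [hk', h0]; norm_num
      · rw [hal]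
        have a1 := i4 (k - 1) (by omega) (by push_cast at hkA; omega) (by push_cast at hkB; omega)
        have hcnt : x.count true + x.count false = x.length := by
          rw [← List.count_not_add_count x true]
          simp [add_comm]
        have a2 := hPx (i := k - 1) (j := x.length - k) (by push_cast at hkA hkB; omega) (by omega)
        linarith
  · have hD0 := hD'.pure hx
    have hF := pure_hatF hx
    have hal' : ∀ k, al D k = (if k = 0 then 1 else 0) - (if k = x.length + 1 then 1 else 0) := by
      intro k
      rw [hal, hD0, hF, cf_X_pow, cf_X_pow]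
      unfold al
      rw [cf_zero, cf_zero]
      split_ifs <;> omega
    refine ⟨h00, ?_, ?_, ?_⟩
    · intro k hk
      rw [hal']; split_ifs <;> omega
    · intro k hk1 hk _
      rw [hal']; split_ifs <;> omega
    · intro k hk0 hkA hkB
      rw [hcA] at hkA
      rw [hcB] at hkB
      have : k = 0 := by
        by_contra hne
        apply hx
        constructor
        · apply List.count_pos_iff.1
          push_cast at hkA
          omega
        · apply List.count_pos_iff.1
          push_cast at hkB
          omega
      rw [this, h0]; norm_num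

end

end Pool.Agent.H757.TB3
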