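import Pool.Agent.H757.TB3.Braid

/-!
# Evaluation of closed 3-braids
-/

namespace Pool.Agent.H757.TB3

open Pool.Agent.Helper454.Wh
open Pool.Agent.Helper454.Wh.OPiece
open LaurentPolynomial (T)
open Polynomial (toLaurent)
open Q174.TBD

noncomputable section

/-- the matrix of a letter -/
def rhoL : Letter → Matrix (Fin 2) (Fin 2) LP
  | (true, true) => !![T 1, -T (-1); 0, -T (-1)]
  | (true, false) => !![T (-1), -T (-1); 0, -T 1]
  | (false, true) => !![-T (-1), 0; -T 1, T 1]
  | (false, false) => !![-T 1, 0; -T 1, T (-1)]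

/-- the matrix of a word -/
def rho (β : List Letter) : Matrix (Fin 2) (Fin 2) LP := (β.map rhoL).prod

def x1L (x : Letter) : LP := if x.2 then T 1 else T (-1)
def x2L (x : Letter) : LP := if x.2 then -T (-1) else -T 1
def x1 (β : List Letter) : LP := (β.map x1L).prod
def x2 (β : List Letter) : LP := (β.map x2L).prod

theorem hss : (T 1 : LP) * T (-1) = 1 := by
  rw [← LaurentPolynomial.T_add]; simp

theorem subst_add (p q : Polynomial ℤ) : subst (p + q) = subst p + subst q := by
  simp [subst]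
theorem subst_sub (p q : Polynomial ℤ) : subst (p - q) = subst p - subst q := by
  simp [subst]
theorem subst_X_mul (p : Polynomial ℤ) : subst (Polynomial.X * p) = (T 1 - T (-1)) * subst p := by
  simp [subst]
theorem subst_zero : subst 0 = 0 := by simp [subst]
theorem subst_one : subst 1 = 1 := by simp [subst]

variable {Λ : OWord → LP} (hΛ : HomflyRules (1 : LP) 1 (T 1) Λ)

include hΛ

theorem key (β : List Letter) : ∃ c0 c1 c2 c3 c4 c5 : Polynomial ℤ,
    ap (ap (extd Λ) top3) (β.map piece) = comb Λ c0 c1 c2 c3 c4 c5 ∧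
    Rep (T 1 : LP) (T (-1)) (subst c0) (subst c1) (subst c2) (subst c3) (subst c4) (subst c5)
      (x1 β) (x2 β) (rho β 0 0) (rho β 0 1) (rho β 1 0) (rho β 1 1) := by
  induction β using List.reverseRecOn with
  | nil =>
    refine ⟨1, 0, 0, 0, 0, 0, ?_, ?_⟩
    · simp [comb, ap_nil]
    · constructor <;> simp [subst_one, subst_zero, x1, x2, rho]
  | append_singleton β x ih =>
    obtain ⟨c0, c1, c2, c3, c4, c5, h1, h2⟩ := ih
    have e : ap (ap (extd Λ) top3) ((β ++ [x]).map piece) =
        st (ap (ap (extd Λ) top3) (β.map piece)) (piece x) := by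
      rw [List.map_append, ap_append]; rfl
    rw [e, h1]
    have hz : (T 1 - T (-1) : LP) = T 1 - T (-1) := rfl
    have m1 : x1 (β ++ [x]) = x1 β * x1L x := by simp [x1]
    have m2 : x2 (β ++ [x]) = x2 β * x2L x := by simp [x2]
    have m3 : rho (β ++ [x]) = rho β * rhoL x := by simp [rho]
    rw [m1, m2, m3]
    rcases x with ⟨p, t⟩
    cases p <;> cases t
    · refine ⟨_, _, _, _, _, _, comb_neg1 hΛ _ _ _ _ _ _, ?_⟩
      have h := h2.neg1 hss hz
      simpa [subst_add, subst_sub, subst_X_mul, x1L, x2L, rhoL, Matrix.mul_apply,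
        Fin.sum_univ_two] using h
    · refine ⟨_, _, _, _, _, _, comb_pos1 hΛ _ _ _ _ _ _, ?_⟩
      have h := h2.pos1 hss hz
      simpa [subst_add, subst_sub, subst_X_mul, x1L, x2L, rhoL, Matrix.mul_apply,
        Fin.sum_univ_two] using h
    · refine ⟨_, _, _, _, _, _, comb_neg0 hΛ _ _ _ _ _ _, ?_⟩
      have h := h2.neg0 hss hz
      simpa [subst_add, subst_sub, subst_X_mul, x1L, x2L, rhoL, Matrix.mul_apply,
        Fin.sum_univ_two] using h
    · refine ⟨_, _, _, _, _, _, comb_pos0 hΛ _ _ _ _ _ _, ?_⟩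
      have h := h2.pos0 hss hz
      simpa [subst_add, subst_sub, subst_X_mul, x1L, x2L, rhoL, Matrix.mul_apply,
        Fin.sum_univ_two] using h

/-- the value with the nested minima -/
def E3 (f : OWord → LP) : LP := st (st (st f (death 2)) (death 1)) (death 0) []

theorem curlR {n : ℕ} {d : ℕ → Bool} {g : OWord → LP} (hg : g ∈ S LP Λ n d) {i : ℕ}
    (h : i < n) (hd : d i = true) :
    st (st (st g (birth (i + 1) true)) (pos i)) (death (i + 1)) = g := by
  have hT := T_of_mem hg
  rw [← sd2 hΛ (T_birth hT true (by omega)) (by omega), curlBN hΛ hT true (by omega)]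
  exact zig2 hΛ hg h (by rw [hd])

theorem bigon0 {n : ℕ} {d : ℕ → Bool} {g : OWord → LP} (hg : g ∈ S LP Λ n d) {i : ℕ}
    (h : i < n) (b : Bool) : st (st g (birth i b)) (death i) = 0 := by
  have e := bigon hΛ hg (i := i) b h
  rw [sub_self, zero_smul] at e
  have e2 := congrArg (fun f => (T (-1) : LP) • f) e
  simp only [smul_smul, smul_zero] at e2
  rw [mul_comm, hss, one_smul] at e2
  exact e2

omit hΛ in
def dd1 : ℕ → Bool := insD 0 true noD
omit hΛ in
def dd2 : ℕ → Bool := insD 1 true dd1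
omit hΛ in
/-- state after one maximum -/
def g1 (Λ : OWord → LP) : OWord → LP := st (extd Λ) (birth 0 true)
omit hΛ in
/-- state after two maxima -/
def g2 (Λ : OWord → LP) : OWord → LP := st (g1 Λ) (birth 1 true)

omit hΛ in
theorem g1_mem : g1 Λ ∈ S LP Λ 2 dd1 := by
  have h0 : extd Λ ∈ S LP Λ 0 noD := Submodule.subset_span ⟨[], rfl, rfl⟩
  exact birth_mem h0 true le_rfl

omit hΛ in
theorem g2_mem : g2 Λ ∈ S LP Λ 4 dd2 := birth_mem g1_mem true (by omega)

omit hΛ in
theorem top_eq : ap (extd Λ) top3 = st (g2 Λ) (birth 2 true) := rfl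

omit hΛ in
theorem E3_add (f g : OWord → LP) : E3 (f + g) = E3 f + E3 g := rfl
omit hΛ in
theorem E3_smul (c : LP) (f : OWord → LP) : E3 (c • f) = c * E3 f := rfl

/-- two-strand evaluation -/
theorem ev2_one : st (g2 Λ) (death 1) = 0 := bigon0 hΛ g1_mem (by norm_num) true

theorem ev2_pos (h1 : Λ ocircle = 1) :
    st (st (st (g2 Λ) (pos 0)) (death 1)) (death 0) [] = 1 := by
  have e := curlR hΛ (g1_mem (Λ := Λ)) (i := 0) (by norm_num) rfl
  have e' : st (st (g2 Λ) (pos 0)) (death 1) = g1 Λ := e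
  rw [e']
  show extd Λ [birth 0 true, death 0] = _
  rw [extd, if_pos]
  · exact h1
  · simp [OClosed, Pool.Agent.Helper454.Wh.below, OPiece.below, insD]

theorem E3_b0 : E3 (ap (extd Λ) top3) = 0 := by
  unfold E3
  rw [top_eq, bigon0 hΛ g2_mem (by norm_num) true]
  rfl

theorem E3_b1 : E3 (st (ap (extd Λ) top3) (pos 0)) = 0 := by
  unfold E3
  have hT := T_of_mem (mem_top (Λ := Λ))
  have e := xd hΛ hT true (k := 0) (j := 2) (by omega) (by omega)
  rw [cr_true] at e
  rw [e, top_eq, bigon0 hΛ g2_mem (by norm_num) true]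
  rfl

theorem st_b2 : st (st (ap (extd Λ) top3) (pos 1)) (death 2) = g2 Λ := by
  rw [top_eq]
  exact curlR hΛ g2_mem (i := 1) (by norm_num) rfl

theorem st_b3 : st (st (st (ap (extd Λ) top3) (pos 0)) (pos 1)) (death 2) =
    st (g2 Λ) (pos 0) := by
  have hT := T_of_mem (g2_mem (Λ := Λ))
  have e := xb hΛ hT true true (k := 0) (i := 2) (by omega) (by omega)
  rw [cr_true] at e
  rw [top_eq, ← e]
  have hm : st (g2 Λ) (pos 0) ∈ S LP Λ 4 (swpD 0 dd2) := pos_mem g2_mem (by omega)
  exact curlR hΛ hm (i := 1) (by norm_num) rfl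

theorem E3_b2 : E3 (st (ap (extd Λ) top3) (pos 1)) = 0 := by
  unfold E3
  rw [st_b2 hΛ, ev2_one hΛ]
  rfl

theorem E3_b3 (h1 : Λ ocircle = 1) :
    E3 (st (st (ap (extd Λ) top3) (pos 0)) (pos 1)) = 1 := by
  unfold E3
  rw [st_b3 hΛ, ev2_pos hΛ h1]

theorem E3_b4 (h1 : Λ ocircle = 1) :
    E3 (st (st (ap (extd Λ) top3) (pos 1)) (pos 0)) = 1 := by
  unfold E3
  have m1 := mem_cr (mem_top (Λ := Λ)) true (i := 1) (by norm_num)
  have e := xd hΛ (T_of_mem m1) true (k := 0) (j := 2) (by omega) (by omega)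
  simp only [cr_true] at e
  rw [e, st_b2 hΛ, ev2_pos hΛ h1]

theorem E3_b5 (h1 : Λ ocircle = 1) :
    E3 (st (st (st (ap (extd Λ) top3) (pos 0)) (pos 1)) (pos 0)) = T 1 := by
  unfold E3
  have m1 := mem_cr (mem_top (Λ := Λ)) true (i := 0) (by norm_num)
  have m3 := mem_cr m1 true (i := 1) (by norm_num)
  have e := xd hΛ (T_of_mem m3) true (k := 0) (j := 2) (by omega) (by omega)
  simp only [cr_true] at e
  rw [e, st_b3 hΛ]
  -- `pos 0` twice on four strands
  have hsw : swpD 0 dd2 = dd2 := by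
    funext k
    simp only [swpD]
    split_ifs with h1 h2
    · rw [h1]; rfl
    · rw [h2]; rfl
    · rfl
  have hm : st (g2 Λ) (pos 0) ∈ S LP Λ 4 (swpD 0 dd2) := pos_mem g2_mem (by omega)
  rw [hsw] at hm
  have sk := skein_par hΛ hm (i := 0) (by omega) rfl
  rw [one_smul, one_smul, pn hΛ (T_of_mem g2_mem) (by omega)] at sk
  rw [sub_eq_iff_eq_add.1 sk]
  have a1 : st (st ((T 1 : LP) • st (g2 Λ) (pos 0) + g2 Λ) (death 1)) (death 0) [] =
      T 1 * st (st (st (g2 Λ) (pos 0)) (death 1)) (death 0) [] +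
      st (st (g2 Λ) (death 1)) (death 0) [] := rfl
  rw [a1, ev2_pos hΛ h1, ev2_one hΛ]
  simp [st_zero]

omit hΛ in
theorem below_top (β : List Letter) :
    Pool.Agent.Helper454.Wh.below (top3 ++ β.map piece) 0 noD = some (6, d3) := by
  induction β using List.reverseRecOn with
  | nil => simp [top3, Pool.Agent.Helper454.Wh.below, OPiece.below, d3]
  | append_singleton β x ih =>
    rw [List.map_append, ← List.append_assoc, below_append, ih, Option.bind_some]
    rcases x with ⟨p, t⟩
    cases p <;> cases t <;>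
      simp [piece, cr, Pool.Agent.Helper454.Wh.below, OPiece.below, swp0, swp1]

omit hΛ in
theorem closed (β : List Letter) : OClosed (closure β) := by
  unfold closure
  rw [OClosed, below_append, below_top, Option.bind_some]
  simp [bot3, Pool.Agent.Helper454.Wh.below, OPiece.below, d3, insD, delD]

/-- **The Conway polynomial of a closed 3-braid**, by the Burau matrices. -/
theorem conway_closure (h1 : Λ ocircle = 1) (β : List Letter) : ∃ P : Polynomial ℤ,
    Λ (closure β) = toLaurent P ∧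
    (T 2 + 1 + T (-2)) * subst P = x1 β + x2 β - (rho β 0 0 + rho β 1 1) := by
  obtain ⟨c0, c1, c2, c3, c4, c5, e, hr⟩ := key hΛ β
  refine ⟨c3 + c4 + Polynomial.X * c5, ?_, ?_⟩
  · have a1 : Λ (closure β) = extd Λ (closure β) := (if_pos (closed β)).symm
    have a2 : extd Λ (closure β) = E3 (ap (ap (extd Λ) top3) (β.map piece)) := by
      rw [← ap_append]
      rfl
    rw [a1, a2, e]
    unfold comb
    simp only [E3_add, E3_smul, E3_b0 hΛ, E3_b1 hΛ, E3_b2 hΛ, E3_b3 hΛ h1, E3_b4 hΛ h1,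
      E3_b5 hΛ h1, map_add, map_mul, Polynomial.toLaurent_X]
    ring
  · have h := hr.final hss rfl
    rw [subst_add, subst_add, subst_X_mul, ← h]
    have t2 : (T 2 : LP) = T 1 ^ 2 := by rw [LaurentPolynomial.T_pow]; rfl
    have t3 : (T (-2) : LP) = T (-1) ^ 2 := by rw [LaurentPolynomial.T_pow]; rfl
    rw [t2, t3]

end

end Pool.Agent.H757.TB3
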