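import Pool.Agent.H757.TB3.Cf

/-!
# The fence lemma
-/

namespace Pool.Agent.H757.TB3

open Polynomial Matrix

noncomputable section

theorem cf_H_zero (w : List Bool) : cf (H w) 0 = 0 := by
  induction w with
  | nil => simp
  | cons a w ih =>
    cases a
    · rw [H_B, cf_add, cf_X_mul, ih, cf_neg_idx _ (by norm_num)]; rfl
    · rw [H_A, ih]

theorem cf_F_zero {w : List Bool} (hw : w ≠ []) : cf (F w) 0 = 0 := by
  cases w with
  | nil => exact absurd rfl hw
  | cons a w =>
    cases a
    · rw [F_B, cf_X_mul, cf_neg_idx _ (by norm_num)]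
    · rw [F_A, cf_add, cf_X_mul, cf_H_zero, cf_neg_idx _ (by norm_num)]; rfl

theorem cf_K_zero (w : List Bool) : cf (K w) 0 = 1 := by
  induction w with
  | nil => simp [cf_one]
  | cons a w ih =>
    cases a
    · rw [K_B, cf_add, cf_X_mul, ih, cf_neg_idx _ (by norm_num)]; rfl
    · rw [K_A, ih]

theorem cf_F_top (w : List Bool) : cf (F w) w.length = 1 := by
  have := revF w 0
  rw [sub_zero, cf_K_zero] at this
  exact this

/-- shape of a word -/
theorem shape (w : List Bool) : w = [] ∨ (∃ v, w = false :: v) ∨ (∃ v, w = v ++ [true]) ∨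
    (∃ v, w = true :: (v ++ [false])) := by
  cases w with
  | nil => exact Or.inl rfl
  | cons a w =>
    cases a
    · exact Or.inr (Or.inl ⟨w, rfl⟩)
    · rcases List.eq_nil_or_concat w with h | ⟨v, b, h⟩
      · subst h; exact Or.inr (Or.inr (Or.inl ⟨[], rfl⟩))
      · subst h
        cases b
        · exact Or.inr (Or.inr (Or.inr ⟨v, by simp⟩))
        · exact Or.inr (Or.inr (Or.inl ⟨true :: v, by simp⟩))

/-- shape of a word -/
theorem shape2 (w : List Bool) : w = [] ∨ (∃ a, w = [a]) ∨
    (∃ a v b, w = a :: (v ++ [b])) := by
  cases w with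
  | nil => exact Or.inl rfl
  | cons a w =>
    rcases List.eq_nil_or_concat w with h | ⟨v, b, h⟩
    · subst h; exact Or.inr (Or.inl ⟨a, rfl⟩)
    · subst h
      exact Or.inr (Or.inr ⟨a, v, b, by simp⟩)

/-- `β_j(η(w))` -/
def be (w : List Bool) (j : ℤ) : ℤ := cf ((1 - X) * eta w) j

theorem be_zero {w : List Bool} (h : eta w = 0) (j : ℤ) : be w j = 0 := by
  simp [be, h]

theorem be_same (a : Bool) (w : List Bool) (j : ℤ) :
    be (a :: (w ++ [a])) j = be w (j - 1) := by
  unfold be
  have : eta (a :: (w ++ [a])) = X * eta w := by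
    cases a
    · exact eta_BUB w
    · exact eta_AUA w
  rw [this, show (1 - X) * (X * eta w) = X * ((1 - X) * eta w) by ring, cf_X_mul]

theorem be_AB (w : List Bool) (j : ℤ) :
    be (true :: (w ++ [false])) j = cf (F w) (w.length - (j - 1)) - cf (F w) (j - 2) := by
  unfold be
  rw [eta_AVB, show (1 - X) * (X * (R w - X * F (hat w))) =
    X * ((1 - X) * (R w - X * F (hat w))) by ring, idC, cf_X_mul, cf_sub, cf_X_mul, revF,
    show j - 1 - 1 = j - 2 by ring]

theorem be_hat (w : List Bool) (j : ℤ) : be (hat w) j = - be w j := by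
  unfold be
  rw [eta_hat, mul_neg, cf_neg]

theorem be_BA (w : List Bool) (j : ℤ) :
    be (false :: (w ++ [true])) j =
      -(cf (F (hat w)) (w.length - (j - 1)) - cf (F (hat w)) (j - 2)) := by
  have h := be_hat (true :: (hat w ++ [false])) j
  simp only [hat_cons, hat_append, hat_nil, Bool.not_true, Bool.not_false, hat_hat] at h
  rw [h, be_AB, length_hat]

/-- The fence property. -/
def Pp (w : List Bool) : Prop :=
  ∀ i j : ℤ, i ≤ j → i + j ≤ w.length → cf (F w) i ≤ cf (F w) j

/-- Sign of `β(η)`. -/
theorem sgn : ∀ (n : ℕ) (w : List Bool), w.length = n →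
    (∀ v : List Bool, v.length + 2 ≤ w.length → Pp v) →
    (∀ j : ℤ, 2 * j ≤ w.length → 0 ≤ be w j) ∨ (∀ j : ℤ, 2 * j ≤ w.length → be w j ≤ 0) := by
  intro n
  induction n using Nat.strong_induction_on with
  | _ n IH =>
  intro w hn hP
  rcases shape2 w with h | ⟨a, h⟩ | ⟨a, v, b, h⟩
  · subst h; left; intro j _; rw [be_zero eta_nil]
  · subst h; left; intro j _; rw [be_zero (eta_single a)]
  · subst h
    have hlen : ((a :: (v ++ [b])).length : ℤ) = v.length + 2 := by
      simp [List.length_append]; ring
    have hlen' : (a :: (v ++ [b])).length = v.length + 2 := by simp [List.length_append]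
    by_cases hab : a = b
    · subst hab
      have hv := IH v.length (by omega) v rfl (fun u hu => hP u (by omega))
      rcases hv with hv | hv
      · left; intro j hj; rw [be_same]; exact hv _ (by rw [hlen] at hj; omega)
      · right; intro j hj; rw [be_same]; exact hv _ (by rw [hlen] at hj; omega)
    · cases a
      · have hb : b = true := by cases b <;> simp_all
        subst hb
        right; intro j hj
        rw [be_BA]
        have := hP (hat v) (by rw [length_hat]; omega) (j - 2) (v.length - (j - 1))
          (by rw [hlen] at hj; omega) (by rw [length_hat]; omega)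
        linarith
      · have hb : b = false := by cases b <;> simp_all
        subst hb
        left; intro j hj
        rw [be_AB]
        have := hP v (by omega) (j - 2) (v.length - (j - 1))
          (by rw [hlen] at hj; omega) (by omega)
        linarith

/-- coefficient form of (A). -/
theorem bA (v : List Bool) (k : ℤ) :
    cf (F (true :: (v ++ [false]))) (k + 1) - cf (F (true :: (v ++ [false]))) k =
      be v k + (cf (F (hat v)) (v.length - k) - cf (F (hat v)) (k - 2)) := by
  have h := congrArg (fun p => cf p k) (idA v)
  simp only [cf_one_sub, cf_sub, cf_add, cf_X_mul] at h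
  rw [F_AVB, cf_X_mul, cf_X_mul]
  unfold be
  rw [cf_one_sub]
  have h2 := revF (hat v) k
  rw [hat_hat, length_hat] at h2
  rw [h2]
  rw [show k + 1 - 1 = k by ring, show k - 2 = k - 1 - 1 by ring]
  linarith

/-- coefficient form of (B). -/
theorem bB (v : List Bool) (k : ℤ) :
    cf (F (true :: (v ++ [false]))) (k + 1) - cf (F (true :: (v ++ [false]))) k =
      (cf (F v) (v.length - k) - cf (F v) (k - 2)) - be v (k - 1) := by
  have h := congrArg (fun p => cf p k) (idB v)
  simp only [cf_one_sub, cf_sub, cf_X_mul] at h
  rw [F_AVB, cf_X_mul, cf_X_mul]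
  unfold be
  rw [cf_one_sub, revF]
  rw [show k + 1 - 1 = k by ring, show k - 2 = k - 1 - 1 by ring]
  linarith

/-- coefficient form of the `γ` identity. -/
theorem bG (v : List Bool) (k : ℤ) :
    cf (F (true :: (v ++ [false]))) (v.length + 2 - k) - cf (F (true :: (v ++ [false]))) k =
      cf (F (hat v)) (v.length - k) - cf (F (hat v)) (k - 2) := by
  have h := congrArg (fun p => cf p k) (idG v)
  simp only [cf_sub, cf_X_mul] at h
  have hl : ((true :: (v ++ [false])).length : ℤ) = v.length + 2 := by
    simp [List.length_append]; ring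
  have h1 := revF (true :: (v ++ [false])) k
  rw [hl] at h1
  rw [h1, F_AVB, cf_X_mul]
  have h3 : K (hat (true :: (v ++ [false]))) = R (hat v) := by
    simp only [hat_cons, hat_append, hat_nil, Bool.not_true, Bool.not_false]
    exact K_BVA (hat v)
  rw [h3]
  have h2 := revF (hat v) k
  rw [hat_hat, length_hat] at h2
  rw [h2, show k - 2 = k - 1 - 1 by ring]
  linarith

/-- **Fence lemma**. -/
theorem fence : ∀ (n : ℕ) (w : List Bool), w.length = n → Pp w := by
  intro n
  induction n using Nat.strong_induction_on with
  | _ n IH =>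
  intro w hn
  rcases shape w with h | ⟨v, h⟩ | ⟨v, h⟩ | ⟨v, h⟩
  · subst h
    intro i j hij hs
    simp only [F_nil, cf_one, List.length_nil, Nat.cast_zero] at *
    split_ifs <;> omega
  · subst h
    intro i j hij hs
    rw [F_B, cf_X_mul, cf_X_mul]
    simp only [List.length_cons, Nat.cast_add, Nat.cast_one] at hs hn
    exact IH v.length (by omega) v rfl _ _ (by omega) (by omega)
  · subst h
    intro i j hij hs
    rw [F_VA, cf_X_mul, cf_X_mul]
    simp only [List.length_append, List.length_cons, List.length_nil, Nat.cast_add,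
      Nat.cast_one] at hs hn
    exact IH v.length (by omega) v rfl _ _ (by omega) (by push_cast at hs; omega)
  · subst h
    have hl : ((true :: (v ++ [false])).length : ℤ) = v.length + 2 := by
      simp [List.length_append]; ring
    have hl' : (true :: (v ++ [false])).length = v.length + 2 := by simp [List.length_append]
    have hP : ∀ u : List Bool, u.length < n → Pp u := fun u hu => IH u.length hu u rfl
    -- (b)
    have hb : ∀ k : ℤ, 2 * k ≤ v.length + 2 →
        cf (F (true :: (v ++ [false]))) k ≤
          cf (F (true :: (v ++ [false]))) (v.length + 2 - k) := by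
      intro k hk
      have h1 := bG v k
      have h2 := hP (hat v) (by rw [length_hat]; omega) (k - 2) (v.length - k) (by omega)
        (by rw [length_hat]; omega)
      linarith
    -- (a)
    have ha : ∀ k : ℤ, 2 * (k + 1) ≤ v.length + 2 →
        cf (F (true :: (v ++ [false]))) k ≤ cf (F (true :: (v ++ [false]))) (k + 1) := by
      intro k hk
      rcases sgn v.length v rfl (fun u hu => hP u (by omega)) with hs | hs
      · have h1 := bA v k
        have h2 := hP (hat v) (by rw [length_hat]; omega) (k - 2) (v.length - k) (by omega)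
          (by rw [length_hat]; omega)
        have h3 := hs k (by omega)
        linarith
      · have h1 := bB v k
        have h2 := hP v (by omega) (k - 2) (v.length - k) (by omega) (by omega)
        have h3 := hs (k - 1) (by omega)
        linarith
    have hchain : ∀ (m : ℕ) (i : ℤ), 2 * (i + m) ≤ v.length + 2 →
        cf (F (true :: (v ++ [false]))) i ≤ cf (F (true :: (v ++ [false]))) (i + m) := by
      intro m
      induction m with
      | zero => intro i _; simp
      | succ m ihm =>
        intro i hi
        have h1 := ihm i (by push_cast at hi; omega)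
        have h2 := ha (i + m) (by push_cast at hi; omega)
        push_cast
        rw [← add_assoc]
        exact le_trans h1 h2
    intro i j hij hs
    rw [hl] at hs
    by_cases hj : 2 * j ≤ v.length + 2
    · have := hchain (j - i).toNat i (by omega)
      rwa [show i + ((j - i).toNat : ℤ) = j by omega] at this
    · have h1 := hchain (v.length + 2 - j - i).toNat i (by omega)
      rw [show i + ((v.length + 2 - j - i).toNat : ℤ) = v.length + 2 - j by omega] at h1
      have h2 := hb (v.length + 2 - j) (by omega)
      rw [show (v.length : ℤ) + 2 - (v.length + 2 - j) = j by ring] at h2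
      exact le_trans h1 h2

theorem P (w : List Bool) {i j : ℤ} (h : i ≤ j) (h2 : i + j ≤ w.length) :
    cf (F w) i ≤ cf (F w) j := fence _ w rfl i j h h2

theorem F_nonneg (w : List Bool) (j : ℤ) : 0 ≤ cf (F w) j := by
  have := P w (i := min (-1) (-|j|)) (j := j)
    (by rcases abs_cases j with h | h <;> omega)
    (by rcases abs_cases j with h | h <;> omega)
  rwa [cf_neg_idx _ (by omega)] at this

theorem Rmono (w : List Bool) {i j : ℤ} (h : i ≤ j) (h2 : i + j ≤ w.length) :
    cf (R w) i ≤ cf (R w) j := by
  have := P (true :: (w ++ [false])) (i := i + 1) (j := j + 1) (by omega)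
    (by simp [List.length_append]; omega)
  rw [F_AVB, cf_X_mul, cf_X_mul] at this
  simpa using this

theorem beSign (w : List Bool) :
    (∀ j : ℤ, 2 * j ≤ w.length → 0 ≤ be w j) ∨ (∀ j : ℤ, 2 * j ≤ w.length → be w j ≤ 0) :=
  sgn _ w rfl (fun v _ => fence _ v rfl)

end

end Pool.Agent.H757.TB3
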