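import Pool.Agent.H757.TB3.SigClosure

/-!
# The inequality of Hirasawa and Murasugi for closed alternating 3-braids
-/

namespace Pool.Agent.H757.TB3

open Pool.Agent.Helper454.Wh (OPiece OWord)
open Pool.Agent.Helper82_Alt
open LaurentPolynomial (T)
open Polynomial (toLaurent)
open Q174.TBD

noncomputable section

/-- `Δ` is (up to sign) `∑ (-1)^i a_i s^(2 i - n)`, `0 ≤ i ≤ n`, with positive `a_i`, and whenever
the coefficients `a_k, a_(k+1), …, a_(n-k)` in the middle are equal, `n - 2 k ≤ |σ|`. (For a knot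
`n = 2 g` is even; with `k = g - m` this says that `a_(g-m) = ⋯ = a_(g+m)` implies `2 m ≤ |σ|`.) -/
def StableLe (Δ : LaurentPolynomial ℤ) (σ : ℤ) : Prop :=
  ∃ (n : ℕ) (a : ℕ → ℤ) (ε : ℤ), (ε = 1 ∨ ε = -1) ∧ (∀ i ≤ n, 0 < a i) ∧
    (∀ i ≤ n, Δ.coeff (2 * i - n) = ε * (-1) ^ i * a i) ∧
    (∀ j : ℤ, (∀ i ≤ n, j ≠ 2 * i - n) → Δ.coeff j = 0) ∧
    ∀ k : ℕ, 2 * k ≤ n → (∀ i, k ≤ i → i ≤ n - k → a i = a k) → (n : ℤ) - 2 * k ≤ |σ|

theorem hm_closure {Λ : OWord → LaurentPolynomial ℤ} (hΛ : IsConway Λ) (ε : Bool) {w : List Bool}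
    (hA : true ∈ w) (hB : false ∈ w) : ∃ Δ : LaurentPolynomial ℤ,
    IsAlexander Λ (closure (altWord ε w)) Δ ∧
    StableLe Δ ((if ε then (-1 : ℤ) else 1) * ((w.count true : ℤ) - w.count false)) := by
  obtain ⟨P, D, v, hP, hD, hv, hs⟩ := conway_alt hΛ ε w
  have hvA : true ∈ v := by
    rcases hv with h | h
    · rw [h]; exact hA
    · rw [h, mem_hat]; exact hB
  have hvB : false ∈ v := by
    rcases hv with h | h
    · rw [h]; exact hB
    · rw [h, mem_hat]; exact hA
  have h1 := count_add v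
  have h2 : 0 < v.count true := List.count_pos_iff.2 hvA
  have h3 : 0 < v.count false := List.count_pos_iff.2 hvB
  obtain ⟨hpal, h0, k, hk1, hk2, hk3, hk4, hk5⟩ := trapD hD hvA hvB
  have hn : ((v.length - 2 : ℕ) : ℤ) = v.length - 2 := by omega
  have habs : |(if ε then (-1 : ℤ) else 1) * ((w.count true : ℤ) - w.count false)| =
      |(v.count true : ℤ) - v.count false| := by
    rw [abs_mul]
    have e1 : |(if ε then (-1 : ℤ) else 1)| = 1 := by cases ε <;> simp
    rw [e1, one_mul]
    rcases hv with h | h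
    · rw [h]
    · rw [h, count_hat, count_hat, abs_sub_comm]; rfl
  refine ⟨subst P, ⟨P, hP, rfl⟩, v.length - 2, fun i => cf D i, -(-1) ^ (v.count true), ?_, ?_,
    ?_, ?_, ?_⟩
  · rcases neg_one_pow_eq_or ℤ (v.count true) with h | h <;> rw [h]
    · right; rfl
    · left; norm_num
  · intro i hi
    exact pos_aux (v.length - 2) (fun k => cf D k) h0 k hk2
      (fun j => by rw [hn]; exact hpal j) hk3 hk4 i hi
  · intro i hi
    have e : subst P = LaurentPolynomial.C (-(-1) ^ (v.count true)) *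
        (T (-((v.length : ℤ) - 2)) * evalS D) := by
      rw [hs]; unfold sc
      have : (T (-((v.length : ℤ) - 2)) : LP) = T (-(v.length : ℤ)) * T 2 := by
        rw [← LaurentPolynomial.T_add]; congr 1; ring
      rw [this, map_neg, map_pow, map_neg, map_one]; ring
    rw [e, coeff_C_mul, coeff_T_mul, hn,
      show 2 * (i : ℤ) - (v.length - 2) - -((v.length : ℤ) - 2) = 2 * i by ring,
      (coeff_evalS D).1]
    simp only [cf_nat]
    ring
  · intro j hj
    have e : subst P = LaurentPolynomial.C (-(-1) ^ (v.count true)) *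
        (T (-((v.length : ℤ) - 2)) * evalS D) := by
      rw [hs]; unfold sc
      have : (T (-((v.length : ℤ) - 2)) : LP) = T (-(v.length : ℤ)) * T 2 := by
        rw [← LaurentPolynomial.T_add]; congr 1; ring
      rw [this, map_neg, map_pow, map_neg, map_one]; ring
    rw [e, coeff_C_mul, coeff_T_mul]
    by_cases hc : ∃ m : ℕ, j - -((v.length : ℤ) - 2) = 2 * m
    · obtain ⟨m, hm⟩ := hc
      rw [hm, (coeff_evalS D).1]
      have hm2 : ¬ m ≤ v.length - 2 := by
        intro hle
        exact hj m hle (by rw [hn]; omega)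
      have : cf D m = 0 := by
        rw [← hpal, cf_neg_idx _ (by omega)]
      rw [cf_nat] at this
      rw [this]; ring
    · push Not at hc
      rw [(coeff_evalS D).2 _ hc, mul_zero]
  · intro l hl hflat
    have hkl : k ≤ l := by
      by_contra hc
      have e1 := hk3 l (by omega)
      have e2 : cf D ((l + 1 : ℕ) : ℤ) = cf D l := hflat (l + 1) (by omega) (by omega)
      push_cast at e2
      omega
    rw [habs]
    have e3 : ((v.length - 2 : ℕ) : ℤ) - 2 * l ≤ |(v.count true : ℤ) - v.count false| := by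
      rcases abs_cases ((v.count true : ℤ) - v.count false) with h | h <;> omega
    exact e3

end

end Pool.Agent.H757.TB3
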