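import Mathlib

/-!
# Words in two letters and their `2 × 2` matrices

`true` is the letter `A`, `false` the letter `B`.
-/

namespace Pool.Agent.H757.TB3

open Polynomial Matrix

noncomputable section

/-- matrix of a letter -/
def L : Bool → Matrix (Fin 2) (Fin 2) ℤ[X]
  | true => !![X, 1; 0, 1]
  | false => !![X, 0; X, 1]

/-- matrix of a word -/
def M : List Bool → Matrix (Fin 2) (Fin 2) ℤ[X]
  | [] => 1
  | a :: w => L a * M w

theorem M_append (u v : List Bool) : M (u ++ v) = M u * M v := by
  induction u with
  | nil => simp [M]
  | cons a u ih => simp [M, ih, Matrix.mul_assoc]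

/-- the word with the letters exchanged -/
def hat (w : List Bool) : List Bool := w.map (fun b => !b)

@[simp] theorem hat_nil : hat [] = [] := rfl
@[simp] theorem hat_cons (a : Bool) (w : List Bool) : hat (a :: w) = (!a) :: hat w := rfl
@[simp] theorem hat_append (u v : List Bool) : hat (u ++ v) = hat u ++ hat v := by
  simp [hat]
@[simp] theorem hat_hat (w : List Bool) : hat (hat w) = w := by
  induction w with
  | nil => rfl
  | cons a w ih => simp [ih]
@[simp] theorem length_hat (w : List Bool) : (hat w).length = w.length := by
  simp [hat]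

/-- The four entries. -/
def F (w : List Bool) : ℤ[X] := M w 0 0
def G (w : List Bool) : ℤ[X] := M w 0 1
def H (w : List Bool) : ℤ[X] := M w 1 0
def K (w : List Bool) : ℤ[X] := M w 1 1

@[simp] theorem F_nil : F [] = 1 := by simp [F, M]
@[simp] theorem G_nil : G [] = 0 := by simp [G, M]
@[simp] theorem H_nil : H [] = 0 := by simp [H, M]
@[simp] theorem K_nil : K [] = 1 := by simp [K, M]

theorem F_A (w : List Bool) : F (true :: w) = X * F w + H w := by
  simp [F, H, M, L, Matrix.mul_apply, Fin.sum_univ_two]
theorem G_A (w : List Bool) : G (true :: w) = X * G w + K w := by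
  simp [G, K, M, L, Matrix.mul_apply, Fin.sum_univ_two]
theorem H_A (w : List Bool) : H (true :: w) = H w := by
  simp [H, M, L, Matrix.mul_apply, Fin.sum_univ_two]
theorem K_A (w : List Bool) : K (true :: w) = K w := by
  simp [K, M, L, Matrix.mul_apply, Fin.sum_univ_two]
theorem F_B (w : List Bool) : F (false :: w) = X * F w := by
  simp [F, M, L, Matrix.mul_apply, Fin.sum_univ_two]
theorem G_B (w : List Bool) : G (false :: w) = X * G w := by
  simp [G, M, L, Matrix.mul_apply, Fin.sum_univ_two]
theorem H_B (w : List Bool) : H (false :: w) = X * F w + H w := by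
  simp [F, H, M, L, Matrix.mul_apply, Fin.sum_univ_two]
theorem K_B (w : List Bool) : K (false :: w) = X * G w + K w := by
  simp [G, K, M, L, Matrix.mul_apply, Fin.sum_univ_two]

theorem F_append (u v : List Bool) : F (u ++ v) = F u * F v + G u * H v := by
  simp [F, G, H, M_append, Matrix.mul_apply, Fin.sum_univ_two]
theorem G_append (u v : List Bool) : G (u ++ v) = F u * G v + G u * K v := by
  simp [F, G, K, M_append, Matrix.mul_apply, Fin.sum_univ_two]
theorem H_append (u v : List Bool) : H (u ++ v) = H u * F v + K u * H v := by
  simp [F, K, H, M_append, Matrix.mul_apply, Fin.sum_univ_two]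
theorem K_append (u v : List Bool) : K (u ++ v) = H u * G v + K u * K v := by
  simp [K, G, H, M_append, Matrix.mul_apply, Fin.sum_univ_two]

theorem F_sA : F [true] = X := by simp [F_A]
theorem G_sA : G [true] = 1 := by simp [G_A]
theorem H_sA : H [true] = 0 := by simp [H_A]
theorem K_sA : K [true] = 1 := by simp [K_A]
theorem F_sB : F [false] = X := by simp [F_B]
theorem G_sB : G [false] = 0 := by simp [G_B]
theorem H_sB : H [false] = X := by simp [H_B]
theorem K_sB : K [false] = 1 := by simp [K_B]

/-- the conjugation identities (`J M(w) = M(ŵ) J`). -/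
theorem conj (w : List Bool) :
    (X - 1) * F w + H w = (X - 1) * F (hat w) + X * G (hat w) ∧
    (X - 1) * G w + K w = F (hat w) + (1 - X) * G (hat w) ∧
    X * F w + (1 - X) * H w = (X - 1) * H (hat w) + X * K (hat w) ∧
    X * G w + (1 - X) * K w = H (hat w) + (1 - X) * K (hat w) := by
  induction w with
  | nil => simp
  | cons a w ih =>
    obtain ⟨h1, h2, h3, h4⟩ := ih
    cases a
    · simp only [hat_cons, Bool.not_false, F_B, G_B, H_B, K_B, F_A, G_A, H_A, K_A]
      refine ⟨?_, ?_, ?_, ?_⟩
      · linear_combination X * h1 + h3
      · linear_combination X * h2 + h4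
      · linear_combination h3
      · linear_combination h4
    · simp only [hat_cons, Bool.not_true, F_B, G_B, H_B, K_B, F_A, G_A, H_A, K_A]
      refine ⟨?_, ?_, ?_, ?_⟩
      · linear_combination X * h1
      · linear_combination X * h2
      · linear_combination X * h1 + h3
      · linear_combination X * h2 + h4

end

end Pool.Agent.H757.TB3
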