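import Pool.Agent.H757.TB3.Sign
import Pool.Agent.H757.TB3.Alt

/-!
# The signature of a closed alternating 3-braid
-/

namespace Pool.Agent.H757.TB3

open Pool.Agent.Helper454.Kauf (Piece Word Closed width)
open Pool.Agent.Helper454.Wh (OPiece OWord below noD forget OClosed cr swpD insD delD)
open Pool.Agent.Helper82_Alt
open Q174.TBD

/-! ### connectedness -/

def SAll (D : Word) (s : ℕ → ℕ → Bool) : Prop :=
  ∀ t (h : t < D.length), SStep D[t] (s t) (s (t + 1))

def AllV (D : Word) (n : ℕ) (s : ℕ → ℕ → Bool) (v : Bool) : Prop :=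
  ∀ t m, width (D.take t) n = some m → ∀ j < m, s t j = v

theorem SAll_cons {p : Piece} {D : Word} {s : ℕ → ℕ → Bool} (h : SAll (p :: D) s) :
    SStep p (s 0) (s 1) ∧ SAll D (fun t => s (t + 1)) := by
  refine ⟨h 0 (by simp), fun t ht => ?_⟩
  exact h (t + 1) (by simpa using ht)

theorem AllV_cons {p : Piece} {D : Word} {n : ℕ} {s : ℕ → ℕ → Bool} {v : Bool}
    (h0 : ∀ j < n, s 0 j = v)
    (h1 : ∀ m, p.width n = some m → AllV D m (fun t => s (t + 1)) v) :
    AllV (p :: D) n s v := by
  intro t m hm j hj
  cases t with
  | zero =>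
    simp only [List.take_zero] at hm
    have : n = m := by simpa [width] using hm
    subst this
    exact h0 j hj
  | succ t =>
    simp only [List.take_succ_cons, width] at hm
    cases hp : p.width n with
    | none => rw [hp] at hm; cases hm
    | some n' =>
      rw [hp] at hm
      exact h1 n' hp t m hm j hj

theorem AllV_nil {n : ℕ} {s : ℕ → ℕ → Bool} {v : Bool}
    (hn : n = 0) : AllV [] n s v := by
  intro t m hm j hj
  have : n = m := by simpa [width] using hm
  omega

/-- the unoriented crossing of a letter -/
def upiece (x : Letter) : Piece := (piece x).forget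

def ubot : Word := [.death 2, .death 1, .death 0]
def utop : Word := [.birth 0, .birth 1, .birth 2]

theorem forget_closure (β : List Letter) :
    forget (closure β) = utop ++ (β.map upiece ++ ubot) := by
  unfold closure forget utop ubot top3 bot3
  simp [upiece, OPiece.forget, Function.comp_def]

theorem upiece_step (x : Letter) (s s' : ℕ → Bool) (h : SStep (upiece x) s s') :
    (∀ j, s' j = s j) ∧ (if x.1 then s 0 = s 1 else s 1 = s 2) := by
  rcases x with ⟨p, t⟩
  cases p <;> cases t <;> simpa [upiece, piece, cr, OPiece.forget, SStep] using h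

theorem upiece_width (x : Letter) : (upiece x).width 6 = some 6 := by
  rcases x with ⟨p, t⟩
  cases p <;> cases t <;> simp [upiece, piece, cr, OPiece.forget, Piece.width]

theorem bot_all {s : ℕ → ℕ → Bool} {v : Bool} (h : SAll ubot s) (h0 : ∀ j < 6, s 0 j = v) :
    AllV ubot 6 s v := by
  obtain ⟨a1, h1⟩ := SAll_cons h
  obtain ⟨a2, h2⟩ := SAll_cons h1
  obtain ⟨a3, h3⟩ := SAll_cons h2
  simp only [SStep] at a1 a2 a3
  have b1 : ∀ j < 4, s 1 j = v := by
    intro j hj
    by_cases hj2 : j < 2
    · rw [← a1.1 j hj2]; exact h0 j (by omega)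
    · rw [← a1.2.1 j (by omega)]; exact h0 (j + 2) (by omega)
  have b2 : ∀ j < 2, s 2 j = v := by
    intro j hj
    by_cases hj2 : j < 1
    · rw [← a2.1 j hj2]; exact b1 j (by omega)
    · rw [← a2.2.1 j (by omega)]; exact b1 (j + 2) (by omega)
  refine AllV_cons h0 fun m hm => ?_
  have hm' : m = 4 := by simpa [Piece.width, eq_comm] using hm
  subst hm'
  refine AllV_cons b1 fun m hm => ?_
  have hm' : m = 2 := by simpa [Piece.width, eq_comm] using hm
  subst hm'
  refine AllV_cons b2 fun m hm => ?_
  have hm' : m = 0 := by simpa [Piece.width, eq_comm] using hm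
  subst hm'
  exact AllV_nil rfl

theorem mid_all (β : List Letter) {s : ℕ → ℕ → Bool} {v : Bool}
    (h : SAll (β.map upiece ++ ubot) s) (h0 : ∀ j < 6, s 0 j = v) :
    AllV (β.map upiece ++ ubot) 6 s v := by
  induction β generalizing s with
  | nil => exact bot_all h h0
  | cons x β ih =>
    obtain ⟨a1, h1⟩ := SAll_cons h
    obtain ⟨b1, -⟩ := upiece_step x _ _ a1
    refine AllV_cons h0 fun m hm => ?_
    rw [upiece_width] at hm
    have hm' : m = 6 := by simpa [eq_comm] using hm
    subst hm'
    exact ih h1 (fun j hj => by rw [b1 j]; exact h0 j hj)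

theorem mid_eq (β : List Letter) {s : ℕ → ℕ → Bool}
    (h : SAll (β.map upiece ++ ubot) s) :
    ((∃ x ∈ β, x.1 = true) → s 0 0 = s 0 1) ∧ ((∃ x ∈ β, x.1 = false) → s 0 1 = s 0 2) := by
  induction β generalizing s with
  | nil => exact ⟨fun ⟨x, hx, _⟩ => by simp at hx, fun ⟨x, hx, _⟩ => by simp at hx⟩
  | cons x β ih =>
    obtain ⟨a1, h1⟩ := SAll_cons h
    obtain ⟨b1, b2⟩ := upiece_step x _ _ a1
    obtain ⟨i1, i2⟩ := ih h1
    simp only [zero_add, b1] at i1 i2
    constructor
    · rintro ⟨y, hy, hy1⟩
      rcases List.mem_cons.1 hy with hy | hy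
      · subst hy
        rwa [if_pos hy1] at b2
      · exact i1 ⟨y, hy, hy1⟩
    · rintro ⟨y, hy, hy1⟩
      rcases List.mem_cons.1 hy with hy | hy
      · subst hy
        rwa [if_neg (by simp [hy1])] at b2
      · exact i2 ⟨y, hy, hy1⟩

theorem connected_closure (β : List Letter) (h1 : ∃ x ∈ β, x.1 = true)
    (h2 : ∃ x ∈ β, x.1 = false) : Connected (forget (closure β)) := by
  intro s hs
  rw [forget_closure] at hs ⊢
  have hs' : SAll (utop ++ (β.map upiece ++ ubot)) s := hs
  obtain ⟨a1, k1⟩ := SAll_cons hs'
  obtain ⟨a2, k2⟩ := SAll_cons k1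
  obtain ⟨a3, k3⟩ := SAll_cons k2
  simp only [SStep, zero_add] at a1 a2 a3
  obtain ⟨e1, e2⟩ := mid_eq β k3
  have e1' := e1 h1
  have e2' := e2 h2
  simp only [zero_add] at e1' e2'
  -- labels at level 1
  have c1 : s 1 1 = s 1 0 := a1.2.2.symm
  have c2 : s 2 0 = s 1 0 := a2.1 0 (by omega)
  have c3 : s 2 3 = s 1 1 := a2.2.1 1 (by omega)
  have c4 : s 2 1 = s 2 2 := a2.2.2
  have d0 : s 3 0 = s 2 0 := a3.1 0 (by omega)
  have d1 : s 3 1 = s 2 1 := a3.1 1 (by omega)
  have d4 : s 3 4 = s 2 2 := a3.2.1 2 (by omega)
  have d5 : s 3 5 = s 2 3 := a3.2.1 3 (by omega)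
  have d2 : s 3 2 = s 3 3 := a3.2.2
  have e1'' : s 3 0 = s 3 1 := e1'
  have e2'' : s 3 1 = s 3 2 := e2'
  refine ⟨s 1 0, ?_⟩
  have l1 : ∀ j < 2, s 1 j = s 1 0 := by
    intro j hj
    interval_cases j
    · rfl
    · exact c1
  have l2 : ∀ j < 4, s 2 j = s 1 0 := by
    intro j hj
    interval_cases j
    · exact c2
    · rw [← d1, ← e1'', d0, c2]
    · rw [← c4, ← d1, ← e1'', d0, c2]
    · rw [c3, c1]
  have l3 : ∀ j < 6, s 3 j = s 1 0 := by
    intro j hj
    interval_cases j
    · rw [d0, c2]
    · rw [← e1'', d0, c2]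
    · rw [← e2'', ← e1'', d0, c2]
    · rw [← d2, ← e2'', ← e1'', d0, c2]
    · rw [d4]; exact l2 2 (by omega)
    · rw [d5]; exact l2 3 (by omega)
  show AllV (utop ++ (β.map upiece ++ ubot)) 0 s (s 1 0)
  refine AllV_cons (by intro j hj; omega) fun m hm => ?_
  have hm' : m = 2 := by simpa [Piece.width, eq_comm] using hm
  subst hm'
  refine AllV_cons l1 fun m hm => ?_
  have hm' : m = 4 := by simpa [Piece.width, eq_comm] using hm
  subst hm'
  refine AllV_cons l2 fun m hm => ?_
  have hm' : m = 6 := by simpa [Piece.width, eq_comm] using hm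
  subst hm'
  exact mid_all β k3 l3

/-! ### the numbers in Traczyk's formula -/

theorem crs_append (u v : Word) : crs (u ++ v) = crs u + crs v := by
  induction u with
  | nil => simp [crs]
  | cons p u ih => cases p <;> simp [crs, ih] <;> omega

theorem crs_map (β : List Letter) : crs (β.map upiece) = β.length := by
  induction β with
  | nil => rfl
  | cons x β ih =>
    rcases x with ⟨p, t⟩
    cases p <;> cases t <;> simp [upiece, piece, cr, OPiece.forget, crs] <;> exact ih

theorem crs_closure (β : List Letter) : crs (forget (closure β)) = β.length := by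
  rw [forget_closure, crs_append, crs_append, crs_map]
  simp [utop, ubot, crs]

/-- the sign of a letter -/
def sgnL (x : Letter) : ℤ := if x.2 then 1 else -1

theorem swpd3 (x : Letter) : swpD (if x.1 then 0 else 1) d3 = d3 := by
  rcases x with ⟨p, t⟩
  cases p
  · exact swp1
  · exact swp0

theorem writhe_closure (β : List Letter) : writhe (closure β) = (β.map sgnL).sum := by
  have h2 : ∀ β : List Letter, writheFrom (β.map piece ++ bot3) 6 d3 = (β.map sgnL).sum := by
    intro β
    induction β with
    | nil =>
      simp [bot3, writheFrom, osign, OPiece.below, d3, insD, delD]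
    | cons x β ih =>
      rw [List.map_cons, List.cons_append, List.map_cons, List.sum_cons, ← ih]
      rcases x with ⟨p, t⟩
      cases p <;> cases t <;>
        simp [piece, cr, writheFrom, osign, OPiece.below, swp0, swp1, sgnL, d3_0, d3_1, d3_2]
  rw [← h2]
  unfold writhe closure
  simp only [top3, List.cons_append, List.nil_append, List.append_assoc, writheFrom, osign,
    OPiece.below]
  simp [d3]

theorem par_closure (ε : Bool) (w : List Bool) :
    ParType (if ε then 1 else 0) (forget (closure (altWord ε w))) := by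
  rw [forget_closure]
  intro p hp
  simp only [utop, ubot, List.mem_append, List.mem_map, List.mem_cons, List.not_mem_nil,
    or_false, altWord] at hp
  rcases hp with hp | ⟨x, ⟨b, -, rfl⟩, rfl⟩ | hp
  · rcases hp with h | h | h <;> subst h <;> trivial
  · cases ε <;> cases b <;> simp [upiece, piece, cr, OPiece.forget]
  · rcases hp with h | h | h <;> subst h <;> trivial

theorem K2_closure (ε : Bool) (w : List Bool) :
    K2 (if ε then 1 else 0) (forget (closure (altWord ε w))) =
      2 * (if ε then (w.count true : ℤ) else w.count false) + 2 := by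
  have h2 : ((((altWord ε w).map upiece).map (K2P (if ε then 1 else 0))).sum : ℤ) =
      2 * (if ε then (w.count true : ℤ) else w.count false) := by
    induction w with
    | nil => simp [altWord]
    | cons a w ih =>
      have e : altWord ε (a :: w) = (if a then (true, !ε) else (false, ε)) :: altWord ε w := rfl
      rw [e, List.map_cons, List.map_cons, List.sum_cons, ih]
      cases ε <;> cases a <;>
        simp [upiece, piece, cr, OPiece.forget, K2P] <;> ring
  rw [forget_closure]
  unfold K2
  rw [List.map_append, List.map_append, List.sum_append, List.sum_append, h2]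
  cases ε <;> simp [utop, ubot, K2P, wh] <;> ring

theorem sgn_alt (ε : Bool) (w : List Bool) : ((altWord ε w).map sgnL).sum =
    (if ε then (-1 : ℤ) else 1) * ((w.count true : ℤ) - w.count false) := by
  induction w with
  | nil => simp [altWord]
  | cons a w ih =>
    have e : altWord ε (a :: w) = (if a then (true, !ε) else (false, ε)) :: altWord ε w := rfl
    rw [e, List.map_cons, List.sum_cons, ih]
    cases ε <;> cases a <;> simp [sgnL] <;> ring

/-- **The signature of a closed alternating 3-braid** (Erle). -/
theorem signature_closure (ε : Bool) {w : List Bool} (hA : true ∈ w) (hB : false ∈ w) :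
    IsSignature (closure (altWord ε w))
      ((if ε then (-1 : ℤ) else 1) * ((w.count true : ℤ) - w.count false)) := by
  have hlen : (altWord ε w).length = w.length := by simp [altWord]
  have hcon : Connected (forget (closure (altWord ε w))) := by
    apply connected_closure
    · refine ⟨(true, !ε), ?_, rfl⟩
      unfold altWord
      rw [List.mem_map]
      exact ⟨true, hA, by simp⟩
    · refine ⟨(false, ε), ?_, rfl⟩
      unfold altWord
      rw [List.mem_map]
      exact ⟨false, hB, by simp⟩
  obtain ⟨σ, h1, h2⟩ := sig_eq (if ε then 1 else 0) (closure (altWord ε w))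
    (by split_ifs <;> omega) (closed _) (by simp [closure, top3]) hcon (par_closure ε w)
  rw [crs_closure, writhe_closure, K2_closure, sgn_alt, hlen] at h2
  have hc := count_add w
  have : σ = (if ε then (-1 : ℤ) else 1) * ((w.count true : ℤ) - w.count false) := by
    cases ε
    · simp only [Bool.false_eq_true, if_false] at h2 ⊢
      push_cast [← hc] at h2
      linarith
    · simp only [if_true] at h2 ⊢
      push_cast [← hc] at h2
      linarith
  rw [← this]
  exact h1

end Pool.Agent.H757.TB3
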