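import Pool.Graph.R_pool_sql_team_seeded_620a6dc7.Helper82_Alt.Sig

/-!
# The signature of a connected alternating diagram, exactly

The lower bound is `Pool.Agent.Helper82_Alt.PSig.t_sig`; here is the upper bound.
-/

namespace Pool.Agent.H757.TB3

open Pool.Agent.Helper454.Kauf (Piece Word Closed width)
open Pool.Agent.Helper454.Wh (OPiece OWord below noD forget OClosed)
open Pool.Agent.Helper82_Alt
open Pool.Agent.Helper82_Alt.PSig
open PWid PCol Module

theorem sig_upper (ε : ℕ) (D : OWord) (hε : ε < 2) (hO : OClosed D) (hne : D ≠ [])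
    (hcon : Connected (forget D)) (hpar : ParType ε (forget D)) (σ : ℤ) (hσ : IsSignature D σ) :
    2 * σ ≤ crs (forget D) + writhe D - K2 ε (forget D) + 2 := by
  have hD := closed_forget hO
  have hne' : forget D ≠ [] := by simpa [forget] using hne
  have hlen : D.length = (forget D).length := by simp [forget]
  obtain ⟨p, m, hp, hm, rfl⟩ := hσ
  set W := forget D with hW
  set U₁ := LinearMap.range ((dS (1 - ε) W).comp (LL W (M (1 - ε) W)).subtype) with hU₁
  set U₂ := LinearMap.range ((dL ε W).comp (LL W (M ε W)).subtype) with hU₂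
  set S : Finset (Cr W) := Finset.univ.filter (fun t => plusN D t.1 = true) with hS
  have horth : ∀ x ∈ U₁, ∀ y ∈ U₂, ∑ i, x i * y i = 0 := by
    rintro _ ⟨⟨g, hg⟩, rfl⟩ _ ⟨⟨f, hf⟩, rfl⟩
    exact orth_dS_dL ε hε W hD hpar g f hg hf
  have horth' : ∀ x ∈ U₂, ∀ y ∈ U₁, ∑ i, x i * y i = 0 := by
    intro x hx y hy
    rw [← horth y hy x hx]
    exact Finset.sum_congr rfl fun i _ => mul_comm _ _
  have r1 : PP W (M (1 - ε) W) ≤ finrank ℝ U₁ + 1 := by
    rw [hU₁, range_dS]
    exact rank_ge (by omega) hD hne' hcon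
  have r2 : PP W (M ε W) ≤ finrank ℝ U₂ + 1 := rank_ge hε hD hne' hcon
  have k1 := PP_white ε hε W hD hpar
  have k2 := PP_black ε hε W hD hpar
  have hcard := card_cr W
  have hdim : Fintype.card (Cr W) ≤ finrank ℝ U₁ + finrank ℝ U₂ := by
    rw [hcard]
    have : (crs W : ℤ) ≤ finrank ℝ U₁ + finrank ℝ U₂ := by linarith
    exact_mod_cast this
  have hmain := PLin.main Sᶜ U₂ U₁ horth' (by rw [add_comm]; exact hdim)
  rw [compl_compl] at hmain
  have hU₂le : finrank ℝ U₁ + finrank ℝ U₂ ≤ crs W := by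
    rw [← hcard, ← PLin.orth_eq horth hdim]
    exact PLin.orth_le U₁
  -- the negative index
  have hneg : finrank ℝ (U₂.map (PLin.P Sᶜ)) ≤ m := by
    refine hm.2 ?_
    obtain ⟨K, hK1, hK2⟩ := PLin.exists_compl
      (((PLin.P Sᶜ).comp (dL ε W)).comp (LL W (M ε W)).subtype)
    refine ⟨K.map (LL W (M ε W)).subtype, ?_, ?_, ?_⟩
    · rintro _ ⟨⟨g, hg⟩, -, rfl⟩
      exact hg.1
    · rw [Submodule.finrank_map_subtype_eq, hK1, hU₂, ← LinearMap.range_comp]
      rfl
    · rintro _ ⟨⟨g, hg⟩, hgK, rfl⟩ hne0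
      show 0 < (-1) * seifertForm D g
      rw [form ε hε D hO hpar g hg.1]
      have hz : ∀ t : Cr W, dS (1 - ε) W g t = 0 := fun t => by
        rw [dS_apply]
        have hz0 := dC_zero (c := 1 - ε) (r := g) (by omega) hD
          (by rw [show 1 - (1 - ε) = ε by omega]; exact hg) t.1 t.1.2
        exact mul_eq_zero_of_right _ hz0
      have e1 : ∀ t : Cr W, (if plusN D t.1 then (dS (1 - ε) W g t) ^ 2
          else -(dL ε W g t) ^ 2 - 2 * (dS (1 - ε) W g t * dL ε W g t)) =
          -(PLin.P Sᶜ (dL ε W g) t) ^ 2 := by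
        intro t
        rw [PLin.P_apply, hz t]
        by_cases h : plusN D t.1 = true
        · rw [if_pos h, if_neg (by rw [hS]; simp [h])]
          ring
        · rw [if_neg h, if_pos (by rw [hS]; simp [h])]
          ring
      rw [Finset.sum_congr rfl fun t _ => e1 t, Finset.sum_neg_distrib]
      rw [neg_mul_neg, one_mul]
      by_contra hcon'
      have h1 : ∑ t : Cr W, (PLin.P Sᶜ (dL ε W g) t) ^ 2 = 0 :=
        le_antisymm (not_lt.1 hcon') (Finset.sum_nonneg fun t _ => sq_nonneg _)
      have h2 := (Finset.sum_eq_zero_iff_of_nonneg (fun t _ => sq_nonneg _)).1 h1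
      have h3 : PLin.P Sᶜ (dL ε W g) = 0 := by
        funext t
        exact pow_eq_zero_iff (two_ne_zero) |>.1 (h2 t (Finset.mem_univ t))
      have h4 := hK2 ⟨g, hg⟩ hgK h3
      exact hne0 (congrArg Subtype.val h4)
  -- the positive index
  have hpos : p ≤ finrank ℝ (U₁.map (PLin.P S)) := by
    obtain ⟨V, hV1, hV2, hV3⟩ := hp.1
    rw [← hV2]
    have hmem : ∀ r : V, ((PLin.P S).comp (dS (1 - ε) W)) (r : ℕ → ℕ → ℝ) ∈
        U₁.map (PLin.P S) := by
      rintro ⟨r, hr⟩
      refine ⟨dS (1 - ε) W r, ?_, rfl⟩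
      rw [← dS_rst (1 - ε) (by omega) W hD r]
      exact ⟨⟨rst (1 - ε) W r, restrict_mem (1 - ε) hD (hV1 r hr)⟩, rfl⟩
    refine LinearMap.finrank_le_finrank_of_injective
      (f := (((PLin.P S).comp (dS (1 - ε) W)).comp V.subtype).codRestrict
        (U₁.map (PLin.P S)) hmem) ?_
    rw [← LinearMap.ker_eq_bot, LinearMap.ker_eq_bot']
    rintro ⟨r, hr⟩ h
    have h1 : PLin.P S (dS (1 - ε) W r) = 0 := congrArg Subtype.val h
    by_contra hne0
    have hr0 : r ≠ 0 := fun h0 => hne0 (Subtype.ext h0)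
    have h2 := hV3 r hr hr0
    rw [form ε hε D hO hpar r (hV1 r hr), one_mul] at h2
    have h0 := orth_self ε hε W hD hpar r (hV1 r hr)
    have e1 : ∀ t : Cr W, (if plusN D t.1 then (dS (1 - ε) W r t) ^ 2
          else -(dL ε W r t) ^ 2 - 2 * (dS (1 - ε) W r t * dL ε W r t)) +
          2 * (dS (1 - ε) W r t * dL ε W r t) ≤ 0 := by
      intro t
      by_cases h : plusN D t.1 = true
      · rw [if_pos h]
        have h3 : dS (1 - ε) W r t = 0 := by
          have := congrFun h1 t
          rw [PLin.P_apply, if_pos (by rw [hS]; simp [h])] at this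
          exact this
        rw [h3]
        simp
      · rw [if_neg h]
        nlinarith [sq_nonneg (dL ε W r t)]
    have h3 := Finset.sum_nonpos (s := Finset.univ) fun t _ => e1 t
    rw [Finset.sum_add_distrib, ← Finset.mul_sum, h0, mul_zero, add_zero] at h3
    linarith
  -- the number of positive crossings
  have hwr : (crs W : ℤ) + writhe D = 2 * S.card := by
    have h1 : writhe D = ∑ t : Fin D.length, osign D[t] (dirAt D t) :=
      writhe_sum D 0 noD (isSome_of_closed hO)
    have h2 : (crs W : ℤ) = ∑ t : Fin D.length, if crI D[t].forget = none then (0 : ℤ) else 1 := by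
      rw [← sum_crs W]
      push_cast
      have h3 := sum_fin hlen (fun t => if h : t < D.length then
        (if crI D[t].forget = none then (0 : ℤ) else 1) else 0)
      have h4 : ∑ t : Fin D.length, (if h : (t : ℕ) < D.length then
        (if crI D[(t : ℕ)].forget = none then (0 : ℤ) else 1) else 0) =
        ∑ t : Fin D.length, if crI D[t].forget = none then (0 : ℤ) else 1 :=
        Finset.sum_congr rfl fun t _ => by rw [dif_pos t.2]; rfl
      rw [← h4, h3]
      refine Finset.sum_congr rfl fun t _ => ?_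
      have ht : (t : ℕ) < D.length := by rw [hlen]; exact t.2
      rw [dif_pos ht]
      have : W[t] = D[(t : ℕ)].forget := by simp [hW, forget]
      rw [this]
    rw [h1, h2, ← Finset.sum_add_distrib]
    have h5 : ∀ t : Fin D.length, ((if crI D[t].forget = none then (0 : ℤ) else 1) +
        osign D[t] (dirAt D t)) = if plusN D t then 2 else 0 := by
      intro t
      rw [sign_count]
      unfold plusN
      rw [dif_pos t.2]
      rfl
    rw [Finset.sum_congr rfl fun t _ => h5 t, sum_fin hlen (fun t => if plusN D t then (2 : ℤ) else 0)]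
    rw [← sum_cr W (fun t => if plusN D t then (2 : ℤ) else 0) ?_]
    · rw [hS, Finset.card_filter]
      push_cast
      rw [Finset.mul_sum]
      exact Finset.sum_congr rfl fun t _ => by split_ifs <;> simp
    · intro t ht
      have ht' : (t : ℕ) < D.length := by rw [hlen]; exact t.2
      have h6 : W[t] = D[(t : ℕ)].forget := by simp [hW, forget]
      rw [h6] at ht
      unfold plusN
      rw [dif_pos ht']
      revert ht
      cases D[(t : ℕ)] <;> simp [OPiece.forget, crI, plusP]
  have hSc : (S.card : ℤ) + Sᶜ.card = crs W := by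
    rw [← hcard, ← Finset.card_add_card_compl S]; push_cast; rfl
  have c1 : (Sᶜ.card : ℤ) + finrank ℝ (U₁.map (PLin.P S)) ≤
      finrank ℝ (U₂.map (PLin.P Sᶜ)) + finrank ℝ U₁ := by exact_mod_cast hmain
  have c2 : (finrank ℝ U₁ : ℤ) + finrank ℝ U₂ ≤ crs W := by exact_mod_cast hU₂le
  have c3 : (p : ℤ) ≤ finrank ℝ (U₁.map (PLin.P S)) := by exact_mod_cast hpos
  have c4 : (finrank ℝ (U₂.map (PLin.P Sᶜ)) : ℤ) ≤ m := by exact_mod_cast hneg
  linarith

/-- **Traczyk's formula** for the signature of a connected alternating diagram. -/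
theorem sig_eq (ε : ℕ) (D : OWord) (hε : ε < 2) (hO : OClosed D) (hne : D ≠ [])
    (hcon : Connected (forget D)) (hpar : ParType ε (forget D)) :
    ∃ σ : ℤ, IsSignature D σ ∧ 2 * σ = crs (forget D) + writhe D - K2 ε (forget D) + 2 := by
  obtain ⟨σ, h1, h2⟩ := t_sig ε D hε hO hne hcon hpar
  exact ⟨σ, h1, le_antisymm (sig_upper ε D hε hO hne hcon hpar σ h1) h2⟩

end Pool.Agent.H757.TB3
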