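import Pool.Agent.H757.TB3.Fence

/-!
# The strictness lemma
-/

namespace Pool.Agent.H757.TB3

open Polynomial Matrix

noncomputable section

/-- `W.reverse ++ Y ++ W` -/
def wrap : List Bool → List Bool → List Bool
  | [], Y => Y
  | a :: W, Y => wrap W (a :: (Y ++ [a]))

theorem wrap_eq (W Y : List Bool) : wrap W Y = W.reverse ++ (Y ++ W) := by
  induction W generalizing Y with
  | nil => simp [wrap]
  | cons a W ih => simp [wrap, ih]

theorem length_wrap (W Y : List Bool) : (wrap W Y).length = 2 * W.length + Y.length := by
  rw [wrap_eq]; simp [List.length_append]; ring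

theorem be_wrap (W Y : List Bool) (j : ℤ) : be (wrap W Y) j = be Y (j - W.length) := by
  induction W generalizing Y with
  | nil => simp [wrap]
  | cons a W ih =>
    simp only [wrap, List.length_cons, Nat.cast_add, Nat.cast_one]
    rw [ih, be_same]
    congr 1; ring

/-- decomposition of a word with respect to `η` -/
theorem decomp : ∀ (n : ℕ) (w : List Bool), w.length = n →
    eta w = 0 ∨ (∃ W U, w = wrap W (true :: (U ++ [false]))) ∨
      (∃ W U, w = wrap W (false :: (U ++ [true]))) := by
  intro n
  induction n using Nat.strong_induction_on with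
  | _ n IH =>
  intro w hn
  rcases shape2 w with h | ⟨a, h⟩ | ⟨a, v, b, h⟩
  · subst h; exact Or.inl eta_nil
  · subst h; exact Or.inl (eta_single a)
  · by_cases hab : a = b
    · subst hab
      have hl : v.length < n := by
        rw [← hn, h]; simp [List.length_append]
      rcases IH v.length hl v rfl with hv | ⟨W, U, hv⟩ | ⟨W, U, hv⟩
      · left
        rw [h]
        cases a
        · rw [eta_BUB, hv, mul_zero]
        · rw [eta_AUA, hv, mul_zero]
      · right; left
        refine ⟨W ++ [a], U, ?_⟩
        rw [h, hv, wrap_eq, wrap_eq]; simp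
      · right; right
        refine ⟨W ++ [a], U, ?_⟩
        rw [h, hv, wrap_eq, wrap_eq]; simp
    · cases a
      · have hb : b = true := by cases b <;> simp_all
        subst hb
        exact Or.inr (Or.inr ⟨[], v, by rw [h]; rfl⟩)
      · have hb : b = false := by cases b <;> simp_all
        subst hb
        exact Or.inr (Or.inl ⟨[], v, by rw [h]; rfl⟩)

/-! ### reverse-swap symmetry -/

/-- reverse and exchange the letters -/
def rs (w : List Bool) : List Bool := hat w.reverse

theorem rs_cons (a : Bool) (w : List Bool) : rs (a :: w) = rs w ++ [!a] := by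
  simp [rs, hat]

theorem rs_entries (w : List Bool) : F (rs w) = F w ∧ X * G (rs w) = H w ∧
    H (rs w) = X * G w ∧ K (rs w) = K w := by
  induction w with
  | nil => simp [rs]
  | cons a w ih =>
    obtain ⟨h1, h2, h3, h4⟩ := ih
    rw [rs_cons]
    cases a
    · simp only [Bool.not_false, F_append, G_append, H_append, K_append, F_sA, G_sA, H_sA, K_sA,
        F_B, G_B, H_B, K_B]
      refine ⟨?_, ?_, ?_, ?_⟩
      · linear_combination X * h1
      · linear_combination X * h1 + h2
      · linear_combination X * h3
      · linear_combination h3 + h4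
    · simp only [Bool.not_true, F_append, G_append, H_append, K_append, F_sB, G_sB, H_sB, K_sB,
        F_A, G_A, H_A, K_A]
      refine ⟨?_, ?_, ?_, ?_⟩
      · linear_combination X * h1 + h2
      · linear_combination h2
      · linear_combination X * h3 + X * h4
      · linear_combination h4

theorem R_rs (w : List Bool) : R (rs w) = R w := by
  obtain ⟨h1, h2, h3, h4⟩ := rs_entries w
  unfold R
  linear_combination X * h1 + h2 + h3 + h4

theorem rs_wrap (W U : List Bool) :
    rs (wrap W (true :: (U ++ [false]))) = wrap (hat W) (true :: (rs U ++ [false])) := by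
  rw [wrap_eq, wrap_eq]
  simp [rs, hat]

theorem length_rs (w : List Bool) : (rs w).length = w.length := by simp [rs]

/-! ### the polynomials `S = h + k` and `C = t f + h` -/

def S (w : List Bool) : ℤ[X] := H w + K w
def C (w : List Bool) : ℤ[X] := X * F w + H w

theorem R_A (w : List Bool) : R (true :: w) = X * R w + S w := by
  unfold R S; rw [F_A, G_A, H_A, K_A]; ring
theorem S_A (w : List Bool) : S (true :: w) = S w := by
  unfold S; rw [H_A, K_A]
theorem S_B (w : List Bool) : S (false :: w) = R w := by
  unfold S R; rw [H_B, K_B]; ring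
theorem R_sufA (w : List Bool) : R (w ++ [true]) = R w + X * C w := by
  unfold R C; rw [F_append, G_append, H_append, K_append, F_sA, G_sA, H_sA, K_sA]; ring
theorem C_sufA (w : List Bool) : C (w ++ [true]) = X * C w := by
  unfold C; rw [F_append, H_append, F_sA, H_sA]; ring
theorem C_sufB (w : List Bool) : C (w ++ [false]) = X * R w := by
  unfold C R; rw [F_append, H_append, F_sB, H_sB]; ring

theorem S_repA (q : ℕ) (w : List Bool) : S (List.replicate q true ++ w) = S w := by
  induction q with
  | zero => simp
  | succ q ih => rw [List.replicate_succ, List.cons_append, S_A, ih]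

theorem R_repA (q : ℕ) (w : List Bool) :
    (1 - X) * R (List.replicate q true ++ w) = (1 - X) * (X ^ q * R w) + S w - X ^ q * S w := by
  induction q with
  | zero => simp
  | succ q ih =>
    rw [List.replicate_succ, List.cons_append, R_A, S_repA, pow_succ]
    linear_combination X * ih

theorem replicate_suf (q : ℕ) : List.replicate (q + 1) true = List.replicate q true ++ [true] := by
  rw [List.replicate_succ']

theorem C_repA (q : ℕ) (w : List Bool) : C (w ++ List.replicate q true) = X ^ q * C w := by
  induction q with
  | zero => simp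
  | succ q ih => rw [replicate_suf, ← List.append_assoc, C_sufA, ih, pow_succ]; ring

theorem R_sufrepA (q : ℕ) (w : List Bool) :
    (1 - X) * R (w ++ List.replicate q true) = (1 - X) * R w + X * C w - X ^ q * (X * C w) := by
  induction q with
  | zero => simp
  | succ q ih =>
    rw [replicate_suf, ← List.append_assoc, R_sufA, C_repA, pow_succ]
    linear_combination ih

theorem cf_X_pow_mul (q : ℕ) (p : ℤ[X]) (i : ℤ) : cf (X ^ q * p) i = cf p (i - q) := by
  induction q generalizing i with
  | zero => simp
  | succ q ih =>
    rw [pow_succ', mul_assoc, cf_X_mul, ih]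
    congr 1; push_cast; ring

theorem Smono (Y₁ Y₂ : List Bool) {i j : ℤ} (h : i ≤ j) (h2 : i + j ≤ Y₂.length) :
    cf (S (Y₁ ++ false :: Y₂)) i ≤ cf (S (Y₁ ++ false :: Y₂)) j := by
  induction Y₁ with
  | nil => rw [List.nil_append, S_B]; exact Rmono _ h h2
  | cons a Y₁ ih =>
    cases a
    · rw [List.cons_append, S_B]
      exact Rmono _ h (by simp [List.length_append]; omega)
    · rw [List.cons_append, S_A]; exact ih

/-- splitting off the last run -/
theorem lastRun : ∀ (W : List Bool), W ≠ [] → ∃ (c : Bool) (q : ℕ) (W' : List Bool),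
    W = W' ++ List.replicate (q + 1) c ∧ (W' = [] ∨ ∃ W'', W' = W'' ++ [!c]) := by
  intro W
  induction W using List.reverseRecOn with
  | nil => intro h; exact absurd rfl h
  | append_singleton W a ih =>
    intro _
    by_cases hW : W = []
    · exact ⟨a, 0, [], by simp [hW], Or.inl rfl⟩
    · obtain ⟨c, q, W', h1, h2⟩ := ih hW
      by_cases hac : a = c
      · subst hac
        refine ⟨a, q + 1, W', ?_, h2⟩
        rw [List.replicate_succ' (n := q + 1), ← List.append_assoc, ← h1]
      · refine ⟨a, 0, W, by simp, Or.inr ⟨W' ++ List.replicate q c, ?_⟩⟩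
        have : (!a) = c := by cases a <;> cases c <;> simp_all
        rw [this, h1, List.replicate_succ']
        simp

theorem wrap_append (W W' Y : List Bool) : wrap (W ++ W') Y = wrap W' (wrap W Y) := by
  rw [wrap_eq, wrap_eq, wrap_eq]; simp

theorem cf_R_zero (w : List Bool) : cf (R w) 0 = 1 := by
  unfold R
  simp only [cf_add, cf_X_mul, cf_H_zero, cf_K_zero]
  rw [cf_neg_idx _ (by norm_num), cf_neg_idx _ (by norm_num)]; rfl

theorem cf_R_neg (w : List Bool) {i : ℤ} (h : i < 0) : cf (R w) i = 0 := cf_neg_idx _ h

/-- step of the strictness lemma, run of `A`. -/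
theorem stepA (W' U : List Bool) (q : ℕ) (hW : W' = [] ∨ ∃ W'', W' = W'' ++ [false])
    (IH : cf (R (wrap W' (true :: (U ++ [false])))) (W'.length - 1) <
      cf (R (wrap W' (true :: (U ++ [false])))) W'.length) :
    cf (R (wrap (W' ++ List.replicate (q + 1) true) (true :: (U ++ [false]))))
      ((W'.length + (q + 1) : ℤ) - 1) <
    cf (R (wrap (W' ++ List.replicate (q + 1) true) (true :: (U ++ [false]))))
      (W'.length + (q + 1) : ℤ) := by
  set V' := wrap W' (true :: (U ++ [false])) with hV'
  set rep := List.replicate (q + 1) true with hrep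
  have hlenV' : (V'.length : ℤ) = 2 * W'.length + U.length + 2 := by
    rw [hV', length_wrap]; simp [List.length_append]; ring
  have hV : wrap (W' ++ rep) (true :: (U ++ [false])) = rep ++ (V' ++ rep) := by
    rw [wrap_append, ← hV', wrap_eq, hrep, List.reverse_replicate]
  rw [hV]
  have h1 := congrArg (fun p => cf p ((W'.length : ℤ) + (q + 1))) (R_repA (q + 1) (V' ++ rep))
  simp only [cf_add, cf_sub, cf_one_sub, cf_X_pow_mul] at h1
  rw [← hrep] at h1
  have h2 := congrArg (fun p => cf p (W'.length : ℤ)) (R_sufrepA (q + 1) V')
  simp only [cf_add, cf_sub, cf_one_sub, cf_X_pow_mul, cf_X_mul] at h2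
  rw [← hrep] at h2
  push_cast at h1 h2
  rw [show (W'.length : ℤ) + (q + 1) - (q + 1) = W'.length by ring,
    show (W'.length : ℤ) + (q + 1) - 1 - (q + 1) = W'.length - 1 by ring] at h1
  -- `S`-term
  have hS : cf (S (V' ++ rep)) W'.length ≤ cf (S (V' ++ rep)) (W'.length + (q + 1)) := by
    rcases hW with hW | ⟨W'', hW⟩
    · have e : V' ++ rep = (true :: U) ++ false :: rep := by
        rw [hV', hW]; simp [wrap]
      rw [e]
      apply Smono
      · omega
      · rw [hrep, hW]; simp
    · have e : V' ++ rep = [] ++ false :: (wrap W'' (true :: (U ++ [false])) ++ [false] ++ rep) := by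
        rw [hV', hW, wrap_append]; simp [wrap]
      rw [e]
      apply Smono
      · omega
      · rw [hrep, hW]; simp [length_wrap, List.length_append]; omega
  -- `C`-term
  obtain ⟨V₂, hV₂⟩ : ∃ V₂, V' = V₂ ++ [false] := by
    rcases hW with hW | ⟨W'', hW⟩
    · exact ⟨true :: U, by rw [hV', hW]; simp [wrap]⟩
    · exact ⟨false :: wrap W'' (true :: (U ++ [false])), by rw [hV', hW, wrap_append]; simp [wrap]⟩
  have hlV₂ : (V'.length : ℤ) = V₂.length + 1 := by rw [hV₂]; simp
  have hC : cf (C V') (W'.length - (q + 1) - 1) ≤ cf (C V') (W'.length - 1) := by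
    rw [hV₂, C_sufB, cf_X_mul, cf_X_mul]
    apply Rmono
    · omega
    · omega
  have h3 : cf (C V') (W'.length - (q + 1) - 1) = cf (C V') (W'.length - (q + 1) - 1) := rfl
  linarith

/-- **Strictness lemma**. -/
theorem strict : ∀ (n : ℕ) (W U : List Bool), W.length = n →
    cf (R (wrap W (true :: (U ++ [false])))) (W.length - 1) <
      cf (R (wrap W (true :: (U ++ [false])))) W.length := by
  intro n
  induction n using Nat.strong_induction_on with
  | _ n IH =>
  intro W U hn
  by_cases hW : W = []
  · subst hW
    simp only [List.length_nil, Nat.cast_zero]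
    rw [cf_R_zero, cf_R_neg _ (by norm_num)]; norm_num
  · obtain ⟨c, q, W', h1, h2⟩ := lastRun W hW
    have hlen : (W.length : ℤ) = W'.length + (q + 1) := by rw [h1]; simp
    have hlt : W'.length < n := by rw [← hn, h1]; simp [List.length_append]
    cases c
    · -- pass to the reverse-swapped word
      have e : R (wrap W (true :: (U ++ [false]))) =
          R (wrap (hat W' ++ List.replicate (q + 1) true) (true :: (rs U ++ [false]))) := by
        rw [← R_rs, rs_wrap, h1]
        simp [hat]
      have h := stepA (hat W') (rs U) q ?_ ?_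
      · rw [e, hlen]
        rw [length_hat] at h
        exact h
      · rcases h2 with h2 | ⟨W'', h2⟩
        · left; rw [h2]; rfl
        · right; exact ⟨hat W'', by rw [h2]; simp⟩
      · exact IH _ (by rw [length_hat]; exact hlt) (hat W') (rs U) rfl
    · have h := stepA W' U q h2 (IH _ hlt W' U rfl)
      rw [h1]
      rw [show (((W' ++ List.replicate (q + 1) true).length : ℕ) : ℤ) = W'.length + (q + 1) by simp]
      exact h

end

end Pool.Agent.H757.TB3
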