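import Pool.Agent.H757.TB3.Strict

/-!
# Lemma (Z)
-/

namespace Pool.Agent.H757.TB3

open Polynomial Matrix

noncomputable section

theorem F_AVB_pos (v : List Bool) {j : ℤ} (h1 : 1 ≤ j) (h2 : j ≤ v.length + 2) :
    0 < cf (F (true :: (v ++ [false]))) j := by
  have hl : ((true :: (v ++ [false])).length : ℤ) = v.length + 2 := by
    simp [List.length_append]; ring
  by_cases hj : j = v.length + 2
  · have := cf_F_top (true :: (v ++ [false]))
    rw [hl] at this
    rw [hj, this]; norm_num
  · have h := P (true :: (v ++ [false])) (i := 1) (j := j) h1 (by rw [hl]; omega)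
    have e : cf (F (true :: (v ++ [false]))) 1 = 1 := by
      rw [F_AVB, cf_X_mul]; exact cf_R_zero v
    rw [e] at h
    linarith

/-- the support is an interval -/
theorem supp : ∀ (n : ℕ) (w : List Bool), w.length = n → ∀ u : ℤ, u ≤ w.length →
    cf (F w) u = 0 → cf (F w) (u - 1) = 0 := by
  intro n
  induction n using Nat.strong_induction_on with
  | _ n IH =>
  intro w hn u hu h0
  rcases shape w with h | ⟨v, h⟩ | ⟨v, h⟩ | ⟨v, h⟩
  · subst h
    simp only [List.length_nil, Nat.cast_zero] at hu
    exact cf_neg_idx _ (by omega)
  · subst h
    rw [F_B, cf_X_mul] at *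
    simp only [List.length_cons, Nat.cast_add, Nat.cast_one] at hu hn
    exact IH v.length (by omega) v rfl _ (by omega) h0
  · subst h
    rw [F_VA, cf_X_mul] at *
    simp only [List.length_append, List.length_cons, List.length_nil, Nat.cast_add,
      Nat.cast_one] at hu hn
    exact IH v.length (by omega) v rfl _ (by push_cast at hu; omega) h0
  · subst h
    have hl : ((true :: (v ++ [false])).length : ℤ) = v.length + 2 := by
      simp [List.length_append]; ring
    rw [hl] at hu
    by_cases h1 : 1 ≤ u
    · have := F_AVB_pos v h1 hu
      omega
    · exact cf_neg_idx _ (by omega)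

theorem be_small {U : List Bool} {j : ℤ} (hj : j ≤ 0) : be (true :: (U ++ [false])) j = 0 := by
  rw [be_AB, cf_neg_idx _ (show j - 2 < 0 by omega), revF, cf_neg_idx _ (by omega)]; rfl

/-- **Lemma (Z)**. -/
theorem zlem : ∀ (n : ℕ) (w : List Bool), w.length = n → ∀ i j : ℤ, 0 ≤ i → i < j →
    i + j ≤ w.length - 1 → cf (F w) i = cf (F w) j → cf (F w) (j - 1) = cf (F w) i := by
  intro n
  induction n using Nat.strong_induction_on with
  | _ n IH =>
  intro w hn i j hi hij hs he
  rcases shape w with h | ⟨v, h⟩ | ⟨v, h⟩ | ⟨v, h⟩
  · subst h
    simp only [List.length_nil, Nat.cast_zero] at hs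
    omega
  · subst h
    rw [F_B, cf_X_mul, cf_X_mul] at *
    simp only [List.length_cons, Nat.cast_add, Nat.cast_one] at hs hn
    by_cases hi0 : i = 0
    · rw [cf_neg_idx (i := i - 1) _ (by omega)] at he ⊢
      exact supp _ v rfl _ (by omega) he.symm
    · exact IH v.length (by omega) v rfl (i - 1) (j - 1) (by omega) (by omega) (by omega) he
  · subst h
    rw [F_VA, cf_X_mul, cf_X_mul] at *
    simp only [List.length_append, List.length_cons, List.length_nil, Nat.cast_add,
      Nat.cast_one] at hs hn
    push_cast at hs
    by_cases hi0 : i = 0
    · rw [cf_neg_idx (i := i - 1) _ (by omega)] at he ⊢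
      exact supp _ v rfl _ (by omega) he.symm
    · exact IH v.length (by omega) v rfl (i - 1) (j - 1) (by omega) (by omega) (by omega) he
  · subst h
    have hl : ((true :: (v ++ [false])).length : ℤ) = v.length + 2 := by
      simp [List.length_append]; ring
    have hl' : (true :: (v ++ [false])).length = v.length + 2 := by simp [List.length_append]
    rw [hl] at hs
    set X' := F (true :: (v ++ [false])) with hX'
    have hPX : ∀ {a b : ℤ}, a ≤ b → a + b ≤ v.length + 2 → cf X' a ≤ cf X' b := by
      intro a b h1 h2
      exact P _ h1 (by rw [hl]; exact h2)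
    have hi1 : 1 ≤ i := by
      by_contra hc
      have hi0 : i = 0 := by omega
      have h1 := F_AVB_pos v (j := j) (by omega) (by omega)
      have h0 : cf X' 0 = 0 := cf_F_zero (by simp)
      rw [hi0, h0] at he
      rw [← hX', ← he] at h1
      exact absurd h1 (lt_irrefl 0)
    by_cases hj : 2 * j ≤ v.length + 3
    · have h1 := hPX (a := i) (b := j - 1) (by omega) (by omega)
      have h2 := hPX (a := j - 1) (b := j) (by omega) (by omega)
      omega
    · obtain ⟨k, hk⟩ : ∃ k : ℤ, k = v.length + 2 - j := ⟨_, rfl⟩
      have hjk : j = v.length + 2 - k := by omega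
      have a1 := hPX (a := i) (b := k - 1) (by omega) (by omega)
      have a2 := hPX (a := k - 1) (b := k) (by omega) (by omega)
      have a3 := hPX (a := k) (b := v.length + 2 - k) (by omega) (by omega)
      rw [hjk] at he
      have e1 : cf X' k = cf X' i := by omega
      have e2 : cf X' (k - 1) = cf X' i := by omega
      -- γ_k = 0
      have g0 := bG v k
      rw [← hX'] at g0
      have g1 : cf (F (hat v)) (v.length - k) = cf (F (hat v)) (k - 2) := by linarith
      have z1 := IH (hat v).length (by rw [length_hat]; omega) (hat v) rfl (k - 2)
        (v.length - k) (by omega) (by omega) (by rw [length_hat]; omega) g1.symm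
      have p1 := P (hat v) (i := k - 2) (j := k - 1) (by omega) (by rw [length_hat]; omega)
      have p2 := P (hat v) (i := k - 1) (j := v.length - k - 1) (by omega)
        (by rw [length_hat]; omega)
      -- γ_{k+1} = 0
      have g2 := bG v (k + 1)
      rw [← hX', show (v.length : ℤ) - (k + 1) = v.length - k - 1 by ring,
        show k + 1 - 2 = k - 1 by ring] at g2
      have g3 : cf X' (v.length + 2 - (k + 1)) = cf X' (k + 1) := by linarith
      -- β
      have b1 := bA v k
      rw [← hX', g1] at b1
      have b1' : cf X' (k + 1) - cf X' k = be v k := by linarith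
      have b2 := bA v (k - 1)
      rw [← hX', show k - 1 + 1 = k by ring, show k - 1 - 2 = k - 3 by ring] at b2
      have p3 := P (hat v) (i := k - 3) (j := v.length - (k - 1)) (by omega)
        (by rw [length_hat]; omega)
      have hgoal : be v k = 0 := by
        have hpos : 0 ≤ be v k := by
          have := hPX (a := k) (b := k + 1) (by omega) (by omega)
          linarith
        rcases decomp v.length v rfl with hv | ⟨W, U, hv⟩ | ⟨W, U, hv⟩
        · exact be_zero hv k
        · -- `A ... B`
          have hlv : (v.length : ℤ) = 2 * W.length + U.length + 2 := by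
            rw [hv, length_wrap]; simp [List.length_append]; ring
          have hbe : ∀ t : ℤ, be v t = be (true :: (U ++ [false])) (t - W.length) := by
            intro t; rw [hv, be_wrap]
          have hbs : 0 ≤ be v (k - 1) := by
            rw [hbe, be_AB]
            have := P U (i := k - 1 - W.length - 2) (j := U.length - (k - 1 - W.length - 1))
              (by omega) (by omega)
            linarith
          have hb0 : be v (k - 1) = 0 := by linarith
          rcases lt_trichotomy k (W.length + 1) with hc | hc | hc
          · rw [hbe]; exact be_small (by omega)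
          · exfalso
            have hst := strict _ W U rfl
            rw [← hv] at hst
            have r1 : cf X' k = cf (R v) W.length := by
              rw [hX', F_AVB, cf_X_mul, hc]; congr 1; ring
            have r2 : cf X' (k - 1) = cf (R v) (W.length - 1) := by
              rw [hX', F_AVB, cf_X_mul, hc]; congr 1; ring
            omega
          · rw [hbe, be_AB] at hb0 ⊢
            obtain ⟨l, hl2⟩ : ∃ l : ℤ, l = k - 2 - W.length := ⟨_, rfl⟩
            rw [show k - 1 - (W.length : ℤ) - 1 = l by omega,
              show k - 1 - (W.length : ℤ) - 2 = l - 1 by omega] at hb0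
            rw [show k - (W.length : ℤ) - 1 = l + 1 by omega,
              show k - (W.length : ℤ) - 2 = l by omega]
            by_cases hl0 : l = 0
            · exfalso
              rw [hl0, sub_zero, cf_F_top, cf_neg_idx _ (by norm_num)] at hb0
              norm_num at hb0
            · have z2 := IH U.length (by omega) U rfl (l - 1) (U.length - l) (by omega)
                (by omega) (by omega) (by linarith)
              have q1 := P U (i := l - 1) (j := l) (by omega) (by omega)
              have q2 := P U (i := l) (j := U.length - l - 1) (by omega) (by omega)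
              rw [show (U.length : ℤ) - (l + 1) = U.length - l - 1 by ring]
              linarith
        · -- `B ... A`
          have hlv : (v.length : ℤ) = 2 * W.length + U.length + 2 := by
            rw [hv, length_wrap]; simp [List.length_append]; ring
          have hneg : be v k ≤ 0 := by
            rw [hv, be_wrap, be_BA]
            have := P (hat U) (i := k - W.length - 2) (j := U.length - (k - W.length - 1))
              (by omega) (by rw [length_hat]; omega)
            linarith
          omega
      rw [hgoal] at b1'
      rw [hjk, show (v.length : ℤ) + 2 - k - 1 = v.length + 2 - (k + 1) by ring, g3]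
      linarith

theorem Z (w : List Bool) {i j : ℤ} (hi : 0 ≤ i) (hij : i < j) (hs : i + j ≤ w.length - 1)
    (he : cf (F w) i = cf (F w) j) : cf (F w) (j - 1) = cf (F w) i :=
  zlem _ w rfl i j hi hij hs he

end

end Pool.Agent.H757.TB3
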